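import Pool.Agent.ANO5.Lev.Coord
import Pool.Agent.ANO5.A3.Sys.CptSet

/-!
# ANO5, module Conn: the unstable functions of a regular point

`Th D T` is the full torus function of `Lin.Torus` with values in the space `EE D.d`. It has exact
equivariance under all lifts: `Th (T' x) - e = L^m (Th x - e)` for a vector `e`, and it agrees with
the torus function `tu D T` on the points of the type (`exists_center`).

`ua F D T w c x = ((su F T i (w i) x)_i, tu D T x - c)` are the unstable coordinates of a regular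
type `w` with the level `c`, `una F D T w e` is a function with the same zeros which is expanded by
the lift.
-/

set_option autoImplicit false

open scoped UpperHalfPlane MatrixGroups
open Set Filter Topology

namespace Pool.Agent.ANO5.A3.Conn

open Pool.Agent.ANO3 Pool.Agent.ANO3.Tree Pool.Agent.ANO5.A1 Pool.Agent.ANO5.A2
  Pool.Agent.ANO5.A3 Pool.Agent.ANO5.Tor Pool.Agent.ANO5.Lin Pool.Agent.ANO5.Lev

variable [TFib] {r : ℕ} {S : Fin r → SurfaceMap} {D : TData S} {T₀ T : X r ≃ₜ X r}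
  {F : ∀ i, Flat (S i)} {w : Fin r → ℍ} {m : ℕ} {T' : X r ≃ₜ X r} {H : Fin r → ℍ ≃ₜ ℍ}

/-- The full torus function. -/
noncomputable def Th (D : TData S) (T : X r → X r) (x : X r) : EE D.d := th D.sL (zeta D) T x

theorem continuous_Th (h : Setting S T₀ T) (hT₀ : ∀ x, T₀ x = skew S D.A D.τ x) :
    Continuous (Th D T) :=
  (isCoc_X h hT₀).continuous_th D.sL

private theorem pow_succ_Side {E' : Type*} [NormedAddCommGroup E'] [NormedSpace ℝ E']
    (A : E' →L[ℝ] E') (n : ℕ) (v : E') : (A ^ (n + 1)) v = (A ^ n) (A v) := by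
  rw [pow_succ]
  rfl

private theorem pr_pow_Side {E' : Type*} [NormedAddCommGroup E'] [NormedSpace ℝ E']
    {L : E' →L[ℝ] E'} (s : Split L) (n : ℕ) (v : E') : s.pr ((L ^ n) v) = (L ^ n) (s.pr v) := by
  induction n generalizing v with
  | zero => rfl
  | succ n ih =>
    have h1 : s.pr (L v) = L (s.pr v) := DFunLike.congr_fun s.pr_L v
    rw [pow_succ_Side, pow_succ_Side, ih, h1]

/-- The fixed vector of a lift. -/
structure Center (D : TData S) (F : ∀ i, Flat (S i)) (T : X r ≃ₜ X r) (w : Fin r → ℍ) (m : ℕ)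
    (T' : X r ≃ₜ X r) (c : VU D) (e : EE D.d) : Prop where
  equiv : ∀ x, Th D T (T' x) - e = (D.L ^ m) (Th D T x - e)
  pr : ∀ x, D.sL.pr (Th D T x - e) = Th D T x - e
  type : ∀ x, (∀ i, DU F T i (Sum.inl (w i)) (Sum.inr x) = 0) →
    Th D T x - e = (((tu D T x : Fin TFib.k → ℝ) - c, 0) : EE D.d)

theorem exists_center (h : Setting S T₀ T) (hT₀ : ∀ x, T₀ x = skew S D.A D.τ x)
    (hU : ∀ i, FUnip (F i)) (hw : IsType F w) (hm : 0 < m) (h' : IsLift S T m T' H)
    (he : ∀ i, (F i).Eqv (w i) (H i (w i))) {c : VU D}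
    (hc : ∀ x, (∀ i, DU F T i (Sum.inl (w i)) (Sum.inr x) = 0) →
      (tu D T (T' x) : Fin TFib.k → ℝ) - c = (Lin.lin D.A ^ m) ((tu D T x : Fin TFib.k → ℝ) - c))
    {q : X r} (hq : ∀ i, DU F T i (Sum.inl (w i)) (Sum.inr q) = 0) :
    ∃ e, Center D F T w m T' c e := by
  obtain ⟨γ, δ, hγ, hδ, hT', hH⟩ := h'
  have he' : ∀ i, (F i).Eqv (w i) (γ i • (S i).f^[m] (w i)) := fun i => by
    rw [← hH]
    exact he i
  obtain ⟨v, hv⟩ := sym_of_deck D (isDeck_dk hγ hδ)
  obtain ⟨e, he1, he2⟩ := exists_fix D.sL hm v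
  have hco := isCoc_X h hT₀
  have h3 : ∀ x, Th D T (T' x) = (D.L ^ m) (Th D T x) + D.sL.pr v := fun x => by
    rw [hT']
    exact hco.th_lift D.sL hv m x
  have h5 : ∀ x, Th D T (T' x) - e = (D.L ^ m) (Th D T x - e) := fun x => by
    rw [h3, map_sub]
    conv_lhs => rw [he2]
    abel
  have hpr : ∀ x, D.sL.pr (Th D T x - e) = Th D T x - e := fun x => by
    rw [map_sub, he1]
    congr 1
    exact hco.pr_th D.sL x
  -- the points of the type
  have h2 : ∀ x, (∀ i, DU F T i (Sum.inl (w i)) (Sum.inr x) = 0) →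
      Th D T x - e = (((Th D T x).1 - e.1, 0) : EE D.d) := fun x hx => by
    refine Prod.ext rfl (sub_eq_zero.2 ?_)
    exact hco.type D.sL D.sB (q := ContinuousLinearMap.snd ℝ (Fin TFib.k → ℝ)
      (Fin (D.d + 1) → Fin TFib.k → ℝ)) (cmp_snd D.A D.a) hm hv
      (R' := fun y => dk γ δ (T^[m] y)) (fun y => rfl) he1 he2
      (orbit_grow h hT₀ hU hw hm hγ hδ he' hx)
  have hinl : ∀ u : Fin TFib.k → ℝ, D.sL.pr ((u, 0) : EE D.d) = (D.sA.pr u, 0) := fun u =>
    DFunLike.congr_fun (D.sA.natural D.sL (ι := ContinuousLinearMap.inl ℝ (Fin TFib.k → ℝ)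
      (Fin (D.d + 1) → Fin TFib.k → ℝ)) (exm_inl D.A D.a)).1 u
  have h4 : ∀ x, (∀ i, DU F T i (Sum.inl (w i)) (Sum.inr x) = 0) →
      Th D T x - e = (((tu D T x : Fin TFib.k → ℝ) - D.sA.pr e.1, 0) : EE D.d) := fun x hx => by
    have h6 := hpr x
    rw [h2 x hx, hinl, map_sub] at h6
    rw [h2 x hx, ← h6]
    rfl
  -- the level
  have h7 : (c : Fin TFib.k → ℝ) = D.sA.pr e.1 := by
    have h8 : ∀ i, DU F T i (Sum.inl (w i)) (Sum.inr (T' q)) = 0 := fun i =>
      DU_zero_lift (F := F) h ⟨γ, δ, hγ, hδ, hT', hH⟩ (he i).1 (hq i)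
    have h9 := h5 q
    rw [h4 q hq, h4 _ h8] at h9
    have hL : ∀ (n : ℕ) (u : Fin TFib.k → ℝ),
        (D.L ^ n) ((u, 0) : EE D.d) = ((Lin.lin D.A ^ n) u, 0) := by
      intro n
      induction n with
      | zero => exact fun u => rfl
      | succ n ih =>
        intro u
        have h1 : D.L ((u, 0) : EE D.d) = (Lin.lin D.A u, 0) :=
          DFunLike.congr_fun (exm_inl D.A D.a) u
        rw [pow_succ_Side, pow_succ_Side, h1, ih]
    rw [hL] at h9
    have h10 := congrArg Prod.fst h9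
    change (tu D T (T' q) : Fin TFib.k → ℝ) - D.sA.pr e.1 =
      (Lin.lin D.A ^ m) ((tu D T q : Fin TFib.k → ℝ) - D.sA.pr e.1) at h10
    have h11 := hc q hq
    have hpw : D.sA.pr ((tu D T (T' q) : Fin TFib.k → ℝ) - (Lin.lin D.A ^ m) (tu D T q)) =
        (tu D T (T' q) : Fin TFib.k → ℝ) - (Lin.lin D.A ^ m) (tu D T q) := by
      rw [map_sub, pr_pow_Side, pr_coe, pr_coe]
    refine fix_unique D.sA hm (w := (tu D T (T' q) : Fin TFib.k → ℝ) -
      (Lin.lin D.A ^ m) (tu D T q)) (pr_coe c) ?_ (DFunLike.congr_fun D.sA.pr_pr e.1) ?_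
    · rw [hpw]
      rw [map_sub] at h11
      rw [sub_eq_iff_eq_add] at h11
      rw [h11]
      abel
    · rw [hpw]
      rw [map_sub] at h10
      rw [sub_eq_iff_eq_add] at h10
      rw [h10]
      abel
  refine ⟨e, h5, hpr, fun x hx => ?_⟩
  rw [h7]
  exact h4 x hx

/-- The unstable coordinates of a regular type. -/
noncomputable def ua (F : ∀ i, Flat (S i)) (D : TData S) (T : X r ≃ₜ X r) (w : Fin r → ℍ)
    (c : VU D) (x : X r) : (Fin r → ℝ) × VU D :=
  (fun i => su F T i (w i) x, tu D T x - c)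

/-- A function with the same zeros which is expanded. -/
noncomputable def una (F : ∀ i, Flat (S i)) (D : TData S) (T : X r ≃ₜ X r) (w : Fin r → ℍ)
    (e : EE D.d) (x : X r) : ℝ :=
  max ‖(fun i => su F T i (w i) x : Fin r → ℝ)‖ ‖Th D T x - e‖

theorem continuous_ua (h : Setting S T₀ T) (hT₀ : ∀ x, T₀ x = skew S D.A D.τ x)
    (hw : ∀ i, (F i).Reg (w i)) (c : VU D) : Continuous (ua F D T w c) := by
  have h1 : Continuous (tu D T) := (continuous_TU h hT₀).subtype_mk _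
  exact (continuous_pi fun i => continuous_su h (hw i)).prodMk (h1.sub continuous_const)

theorem continuous_una (h : Setting S T₀ T) (hT₀ : ∀ x, T₀ x = skew S D.A D.τ x)
    (hw : ∀ i, (F i).Reg (w i)) (e : EE D.d) : Continuous (una F D T w e) :=
  (continuous_pi fun i => continuous_su h (hw i)).norm.max
    ((continuous_Th h hT₀).sub continuous_const).norm

theorem norm_su_le_iff (h : Setting S T₀ T) (hw : ∀ i, (F i).Reg (w i)) {x : X r} {b : ℝ}
    (hb : 0 ≤ b) : ‖(fun i => su F T i (w i) x : Fin r → ℝ)‖ ≤ b ↔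
      ∀ i, DU F T i (Sum.inl (w i)) (Sum.inr x) ≤ b := by
  rw [pi_norm_le_iff_of_nonneg hb]
  refine forall_congr' fun i => ?_
  rw [Real.norm_eq_abs, abs_su h (hw i)]

theorem DU_le_norm (h : Setting S T₀ T) (hw : ∀ i, (F i).Reg (w i)) (x : X r) (i : Fin r) :
    DU F T i (Sum.inl (w i)) (Sum.inr x) ≤ ‖(fun i => su F T i (w i) x : Fin r → ℝ)‖ :=
  (norm_su_le_iff h hw (norm_nonneg _)).1 le_rfl i

theorem su_eq_zero (h : Setting S T₀ T) (hw : ∀ i, (F i).Reg (w i)) {x : X r} :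
    (fun i => su F T i (w i) x) = 0 ↔ ∀ i, DU F T i (Sum.inl (w i)) (Sum.inr x) = 0 := by
  rw [funext_iff]
  refine forall_congr' fun i => ?_
  rw [← abs_su h (hw i), abs_eq_zero, Pi.zero_apply]

theorem una_nonneg (e : EE D.d) (x : X r) : 0 ≤ una F D T w e x :=
  le_max_of_le_left (norm_nonneg _)

theorem una_zero (h : Setting S T₀ T) (hw : ∀ i, (F i).Reg (w i)) {c : VU D} {e : EE D.d}
    (hc : Center D F T w m T' c e) (x : X r) : una F D T w e x = 0 ↔ ua F D T w c x = 0 := by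
  have h1 : una F D T w e x = 0 ↔ (fun i => su F T i (w i) x) = 0 ∧ Th D T x - e = 0 := by
    rw [← norm_eq_zero (a := (fun i => su F T i (w i) x : Fin r → ℝ)),
      ← norm_eq_zero (a := Th D T x - e)]
    constructor
    · intro h2
      exact ⟨le_antisymm ((le_max_left _ _).trans h2.le) (norm_nonneg _),
        le_antisymm ((le_max_right _ _).trans h2.le) (norm_nonneg _)⟩
    · rintro ⟨h2, h3⟩
      unfold una
      rw [h2, h3, max_self]
  have h2 : ua F D T w c x = 0 ↔ (fun i => su F T i (w i) x) = 0 ∧ tu D T x - c = 0 :=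
    Prod.ext_iff
  rw [h1, h2]
  refine and_congr_right fun h3 => ?_
  rw [hc.type x ((su_eq_zero h hw).1 h3)]
  constructor
  · intro h4
    exact Subtype.ext (congrArg Prod.fst h4)
  · intro h4
    have h5 : ((tu D T x - c : VU D) : Fin TFib.k → ℝ) = 0 := by
      rw [h4]
      rfl
    exact Prod.ext h5 rfl

theorem una_grow (h : Setting S T₀ T) (hw : ∀ i, (F i).Reg (w i)) (hm : 0 < m)
    (h' : IsLift S T m T' H) (hH : ∀ i, H i (w i) = w i) {c : VU D} {e : EE D.d}
    (hc : Center D F T w m T' c e) (hJ : ‖D.sL.J ^ m‖ ≤ 1 / 2) :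
    ∃ L > 1, ∀ x, L * una F D T w e x ≤ una F D T w e (T' x) := by
  obtain ⟨L, hL1, hL2, hL⟩ : ∃ L : ℝ, 1 < L ∧ L ≤ 2 ∧ ∀ i, L ≤ (F i).l := by
    obtain ⟨j, hj⟩ := Finite.exists_min fun j : Option (Fin r) => j.elim 2 fun i => (F i).l
    refine ⟨j.elim 2 fun i => (F i).l, ?_, hj none, fun i => hj (some i)⟩
    cases j with
    | none => exact one_lt_two
    | some i => exact (F i).one_lt
  refine ⟨L, hL1, fun x => ?_⟩
  have hL0 : 0 < L := zero_lt_one.trans hL1
  rw [← le_div_iff₀' hL0]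
  refine max_le ?_ ?_
  · refine (norm_su_le_iff h hw (div_nonneg (una_nonneg _ _) hL0.le)).2 fun i => ?_
    rw [le_div_iff₀' hL0]
    have h1 := DU_iterate (F := F) h h' (hH i) 1 x
    rw [Nat.mul_one] at h1
    refine le_trans ?_ ((h1.trans (DU_le_norm h hw (T' x) i)).trans (le_max_left _ _))
    refine mul_le_mul_of_nonneg_right ((hL i).trans ?_) ((isTree_DU h i).nonneg _ _)
    exact le_self_pow₀ (F i).one_lt.le hm.ne'
  · rw [le_div_iff₀' hL0]
    refine le_trans ?_ (le_max_right _ _)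
    rw [hc.equiv]
    have h1 : Th D T x - e = (D.sL.J ^ m) ((D.L ^ m) (Th D T x - e)) := by
      rw [D.sL.J_pow_L_pow hm, hc.pr]
    have h2 : ‖Th D T x - e‖ ≤ 1 / 2 * ‖(D.L ^ m) (Th D T x - e)‖ := by
      conv_lhs => rw [h1]
      exact ((D.sL.J ^ m).le_opNorm _).trans (mul_le_mul_of_nonneg_right hJ (norm_nonneg _))
    have h3 := norm_nonneg (Th D T x - e)
    nlinarith

theorem ua_zero (h : Setting S T₀ T) (hw : ∀ i, (F i).Reg (w i)) (h' : IsLift S T m T' H)
    (hH : ∀ i, H i (w i) = w i) {c : VU D} {e : EE D.d} (hc : Center D F T w m T' c e) {x : X r}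
    (hx : ua F D T w c x = 0) : ua F D T w c (T' x) = 0 := by
  have h1 : (fun i => su F T i (w i) x) = 0 := congrArg Prod.fst hx
  have h2 : Th D T x - e = 0 := by
    have h3 := (una_zero h hw hc x).2 hx
    exact norm_le_zero_iff.1 ((le_max_right _ _).trans h3.le)
  have h3 : (fun i => su F T i (w i) (T' x)) = 0 := by
    funext i
    obtain ⟨σ, -, h4⟩ := sign_su (F := F) h h' (hw i) (hH i)
    obtain ⟨b, -, h5⟩ := h4 x
    rw [h5, congrFun h1 i, Pi.zero_apply, mul_zero, mul_zero]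
  refine (una_zero h hw hc (T' x)).1 ?_
  unfold una
  rw [h3, hc.equiv, h2, map_zero, norm_zero, norm_zero, max_self]

private theorem pr_J_pow_Side {E' : Type*} [NormedAddCommGroup E'] [NormedSpace ℝ E']
    {L : E' →L[ℝ] E'} (s : Split L) {n : ℕ} (hn : 0 < n) (v : E') :
    s.pr ((s.J ^ n) v) = (s.J ^ n) v := by
  obtain ⟨j, rfl⟩ : ∃ j, n = j + 1 := ⟨n - 1, by omega⟩
  rw [pow_succ']
  exact DFunLike.congr_fun s.pr_J _

theorem exists_BU (D : TData S) (hm : 0 < m) (n : ℕ) : ∃ B : VU D ≃L[ℝ] VU D, ∀ v,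
    (B v : Fin TFib.k → ℝ) = ((Lin.lin D.A ^ m) ^ n) v := by
  obtain ⟨B, hB⟩ : ∃ B : VU D ≃L[ℝ] VU D, ∀ v,
      (B v : Fin TFib.k → ℝ) = (Lin.lin D.A ^ m) v := by
    let e : VU D ≃ₗ[ℝ] VU D :=
      { toFun := fun v => ⟨(Lin.lin D.A ^ m) v, ⟨(Lin.lin D.A ^ m) v, by
          change D.sA.pr ((Lin.lin D.A ^ m) (v : Fin TFib.k → ℝ)) = _
          rw [pr_pow_Side, pr_coe]⟩⟩
        invFun := fun v => ⟨(D.sA.J ^ m) v, ⟨(D.sA.J ^ m) v, pr_J_pow_Side D.sA hm _⟩⟩
        map_add' := fun v w => Subtype.ext (map_add _ _ _)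
        map_smul' := fun a v => Subtype.ext (map_smul _ _ _)
        left_inv := fun v => Subtype.ext (by
          change (D.sA.J ^ m) ((Lin.lin D.A ^ m) (v : Fin TFib.k → ℝ)) = v
          rw [D.sA.J_pow_L_pow hm, pr_coe])
        right_inv := fun v => Subtype.ext (by
          change (Lin.lin D.A ^ m) ((D.sA.J ^ m) (v : Fin TFib.k → ℝ)) = v
          rw [D.sA.L_pow_J_pow hm, pr_coe]) }
    exact ⟨e.toContinuousLinearEquiv, fun v => rfl⟩
  induction n with
  | zero => exact ⟨ContinuousLinearEquiv.refl ℝ _, fun v => rfl⟩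
  | succ n ih =>
    obtain ⟨Bn, hBn⟩ := ih
    refine ⟨B.trans Bn, fun v => ?_⟩
    rw [pow_succ_Side, ContinuousLinearEquiv.trans_apply, hBn, hB]

theorem exists_diag (s : Fin r → ℝ) (hs : ∀ i, s i = 1 ∨ s i = -1) (n : ℕ) :
    ∃ Λ : (Fin r → ℝ) ≃L[ℝ] (Fin r → ℝ), ∀ v i, Λ v i = s i ^ n * v i := by
  let L : (Fin r → ℝ) →L[ℝ] (Fin r → ℝ) :=
    ContinuousLinearMap.pi fun i => (s i ^ n) • ContinuousLinearMap.proj (R := ℝ) i
  have hL : ∀ v i, L v i = s i ^ n * v i := fun v i => by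
    simp [L]
  have h1 : ∀ i, s i ^ n * s i ^ n = 1 := fun i => by
    rcases hs i with h | h
    · rw [h, one_pow, one_mul]
    · rw [h, ← mul_pow]
      norm_num
  have h2 : Function.LeftInverse L L := fun v => by
    funext i
    rw [hL, hL, ← mul_assoc, h1, one_mul]
  exact ⟨ContinuousLinearEquiv.equivOfInverse L L h2 h2, fun v i => hL v i⟩

theorem ua_hom (h : Setting S T₀ T) (hw : ∀ i, (F i).Reg (w i)) (hm : 0 < m)
    (h' : IsLift S T m T' H) (hH : ∀ i, H i (w i) = w i) {c : VU D} {e : EE D.d}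
    (hc : Center D F T w m T' c e) (n : ℕ) :
    ∃ Λ : ((Fin r → ℝ) × VU D) ≃L[ℝ] ((Fin r → ℝ) × VU D), ∀ x, ∀ t ∈ Icc (0 : ℝ) 1,
      (1 - t) • ua F D T w c (T'^[n] x) + t • Λ (ua F D T w c x) = 0 → ua F D T w c x = 0 := by
  choose σ hσ hσ' using fun i : Fin r => sign_su (F := F) h h' (hw i) (hH i)
  obtain ⟨Λ₁, hΛ₁⟩ := exists_diag σ hσ n
  obtain ⟨B, hB⟩ := exists_BU D hm n
  have hit : ∀ (k : ℕ) (x : X r) (i : Fin r), ∃ b : ℝ, 0 < b ∧
      su F T i (w i) (T'^[k] x) = b * (σ i ^ k * su F T i (w i) x) := by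
    intro k x i
    induction k with
    | zero => exact ⟨1, one_pos, by simp⟩
    | succ k ih =>
      obtain ⟨b, hb, h1⟩ := ih
      obtain ⟨b', hb', h2⟩ := hσ' i (T'^[k] x)
      refine ⟨b' * b, mul_pos hb' hb, ?_⟩
      rw [Function.iterate_succ_apply', h2, h1, pow_succ]
      ring
  refine ⟨Λ₁.prodCongr B, fun x t ht h0 => ?_⟩
  have h1 : (1 - t) • (fun i => su F T i (w i) (T'^[n] x)) +
      t • Λ₁ (fun i => su F T i (w i) x) = 0 := congrArg Prod.fst h0
  have h2 : (1 - t) • (tu D T (T'^[n] x) - c) + t • B (tu D T x - c) = 0 :=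
    congrArg Prod.snd h0
  have h3 : (fun i => su F T i (w i) x) = 0 := by
    funext i
    obtain ⟨b, hb, h4⟩ := hit n x i
    have h5 := congrFun h1 i
    rw [Pi.add_apply, Pi.smul_apply, Pi.smul_apply, smul_eq_mul, smul_eq_mul, h4, hΛ₁,
      Pi.zero_apply] at h5
    have h6 : 0 < (1 - t) * b + t := by
      rcases eq_or_lt_of_le ht.1 with h | h
      · rw [← h]
        linarith
      · have h9 : 0 ≤ (1 - t) * b := mul_nonneg (by linarith [ht.2]) hb.le
        linarith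
    have h7 : ((1 - t) * b + t) * (σ i ^ n * su F T i (w i) x) = 0 := by linarith
    have h8 : σ i ^ n ≠ 0 := by
      refine pow_ne_zero _ ?_
      rcases hσ i with h | h <;> rw [h] <;> norm_num
    exact (mul_eq_zero.1 ((mul_eq_zero.1 h7).resolve_left h6.ne')).resolve_left h8
  have h4 : ∀ k, ∀ i, DU F T i (Sum.inl (w i)) (Sum.inr (T'^[k] x)) = 0 := by
    intro k
    refine (su_eq_zero h hw).1 ?_
    funext i
    obtain ⟨b, -, h5⟩ := hit k x i
    rw [h5, congrFun h3 i, Pi.zero_apply, mul_zero, mul_zero]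
  have h5 : ∀ k, Th D T (T'^[k] x) - e = ((D.L ^ m) ^ k) (Th D T x - e) := by
    intro k
    induction k with
    | zero => rfl
    | succ k ih =>
      rw [Function.iterate_succ_apply', hc.equiv, ih, pow_succ']
      rfl
  have hL : ∀ (n : ℕ) (u : Fin TFib.k → ℝ),
      (D.L ^ n) ((u, 0) : EE D.d) = ((Lin.lin D.A ^ n) u, 0) := by
    intro n
    induction n with
    | zero => exact fun u => rfl
    | succ n ih =>
      intro u
      have h1 : D.L ((u, 0) : EE D.d) = (Lin.lin D.A u, 0) :=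
        DFunLike.congr_fun (exm_inl D.A D.a) u
      rw [pow_succ_Side, pow_succ_Side, h1, ih]
  have h6 : tu D T (T'^[n] x) - c = B (tu D T x - c) := by
    have h7 := h5 n
    rw [hc.type _ (h4 n), hc.type x (h4 0), ← pow_mul, hL, pow_mul] at h7
    refine Subtype.ext ?_
    rw [hB]
    exact congrArg Prod.fst h7
  rw [h6, ← add_smul, sub_add_cancel, one_smul] at h2
  exact Prod.ext h3 ((B.map_eq_zero_iff).1 h2)

end Pool.Agent.ANO5.A3.Conn
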