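import Pool.Agent.ANO5.A3.Conn.DegX

/-!
# ANO5, module Conn: the total degree
-/

set_option autoImplicit false

open Set Filter Topology

namespace Pool.Agent.ANO5.A3.Conn

open Pool.Agent.ANO5.A1

variable [Fib] {r : ℕ}
variable {E₁ E₂ : Type} [NormedAddCommGroup E₁] [NormedSpace ℝ E₁]
  [NormedAddCommGroup E₂] [NormedSpace ℝ E₂] [FiniteDimensional ℝ E₁] [FiniteDimensional ℝ E₂]

/-- the total degree of the pair -/
def Total (C₀ : E r ≃L[ℝ] E₁ × E₂) (Φ : X r → E₁ × E₂) (d : ℕ) : Prop :=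
  ∃ K : Set (X r), IsCompact K ∧ {x | Φ x = 0} ⊆ interior K ∧ (degX C₀ Φ K).natAbs = d

theorem Total.compact {C₀ : E r ≃L[ℝ] E₁ × E₂} {Φ : X r → E₁ × E₂} {d : ℕ}
    (h : Total C₀ Φ d) (hΦ : Continuous Φ) : IsCompact {x | Φ x = 0} := by
  obtain ⟨K, hK, h1, -⟩ := h
  exact hK.of_isClosed_subset (isClosed_singleton.preimage hΦ) (h1.trans interior_subset)

end Pool.Agent.ANO5.A3.Conn
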