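import Pool.Agent.ANO5.A3.Conn.Final
import Pool.Agent.ANO5.A3.Conn.Side
import Pool.Agent.ANO5.A3.Tot.Torus
import Pool.Agent.ANO5.End.Coord
import Pool.Agent.ANO5.A2.Dim.RankConst

/-!
# ANO5, module Conn: connections and the model (application of `no_conn`)

`meet`: let `N` be a point. If there is a point in the leaves of the regular types `w'`, `w''`
with the levels `c'.1`, `c''.2` then all the model leaves `du (w' i) = 0`, `ds (w'' i) = 0` meet.
-/

set_option autoImplicit false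

open scoped UpperHalfPlane MatrixGroups
open Set Filter Topology

namespace Pool.Agent.ANO5.A3.Conn

open Pool.Agent.ANO3 Pool.Agent.ANO3.Tree Pool.Agent.ANO5.A1 Pool.Agent.ANO5.A2
  Pool.Agent.ANO5.A3 Pool.Agent.ANO5.Tor Pool.Agent.ANO5.Lin Pool.Agent.ANO5.Lev
  Pool.Agent.ANO5.A3.End

variable [TFib] {r : ℕ} {S : Fin r → SurfaceMap} {D : TData S} {D' : TData fun i => rev (S i)}
  {T₀ T : X r ≃ₜ X r} {F : ∀ i, Flat (S i)}

private theorem pow_apply_Apply (G : X r ≃ₜ X r) (n : ℕ) (x : X r) : (G ^ n) x = G^[n] x := by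
  induction n with
  | zero => rfl
  | succ n ih =>
    rw [pow_succ', Function.iterate_succ_apply', ← ih]
    rfl

/-- The distances of two regular types. -/
theorem una_le (h : Setting S T₀ T) {w' w'' : Fin r → ℍ} (hw' : ∀ i, (F i).Reg (w' i))
    (hw'' : ∀ i, (F i).Reg (w'' i)) (e' e'' : EE D.d) :
    ∃ C : ℝ, ∀ x, una F D T w' e' x ≤ C + una F D T w'' e'' x := by
  obtain ⟨A₀, hA₀⟩ : ∃ A₀ : ℝ, ∀ i, (F i).du (w' i) (w'' i) ≤ A₀ := by
    obtain ⟨c, hc⟩ := (Set.finite_range fun i : Fin r => (F i).du (w' i) (w'' i)).bddAbove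
    exact ⟨c, fun i => hc ⟨i, rfl⟩⟩
  refine ⟨|A₀| + ‖e'' - e'‖, fun x => ?_⟩
  have h0 := una_nonneg (F := F) (T := T) (w := w'') e'' x
  have h00 := norm_nonneg (e'' - e')
  have h01 := abs_nonneg A₀
  refine max_le ?_ ?_
  · refine (norm_su_le_iff h hw' (by positivity)).2 fun i => ?_
    have h1 := (isTree_DU (F := F) h i).triangle (Sum.inl (w' i)) (Sum.inl (w'' i)) (Sum.inr x)
    rw [DU_inl] at h1
    have h2 := (DU_le_norm h hw'' x i).trans (le_max_left _ ‖Th D T x - e''‖)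
    have h3 := (hA₀ i).trans (le_abs_self A₀)
    change DU F T i (Sum.inl (w'' i)) (Sum.inr x) ≤ una F D T w'' e'' x at h2
    linarith
  · have h1 : Th D T x - e' = (Th D T x - e'') + (e'' - e') := by abel
    have h2 : ‖Th D T x - e''‖ ≤ una F D T w'' e'' x := le_max_right _ _
    rw [h1]
    refine (norm_add_le _ _).trans ?_
    linarith

theorem exists_small (h : Sit D D' T₀ T) : ∃ n₀ : ℕ, ∀ n, n₀ ≤ n →
    ‖D.sL.J ^ n‖ ≤ 1 / 2 ∧ ‖D'.sL.J ^ n‖ ≤ 1 / 2 := by
  obtain ⟨C, μ, hμ, hμ1, hC⟩ := D.sL.fast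
  obtain ⟨C', μ', hμ', hμ1', hC'⟩ := D'.sL.fast
  have h1 := (tendsto_pow_atTop_nhds_zero_of_lt_one hμ.le hμ1).const_mul C
  have h2 := (tendsto_pow_atTop_nhds_zero_of_lt_one hμ'.le hμ1').const_mul C'
  rw [mul_zero] at h1 h2
  obtain ⟨n₀, hn₀⟩ := eventually_atTop.1 ((h1.eventually_le_const
    (one_half_pos : (0 : ℝ) < 1 / 2)).and (h2.eventually_le_const
    (one_half_pos : (0 : ℝ) < 1 / 2)))
  exact ⟨n₀, fun n hn => ⟨(hC n).trans (hn₀ n hn).1, (hC' n).trans (hn₀ n hn).2⟩⟩

/-- Points with bounded torus functions over a compact set are in a compact set, if `N` is a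
point. -/
theorem compact_tor (h : Sit D D' T₀ T) (h0 : Module.finrank ℝ TFib.base.V = 0)
    {K : Fin r → Set ℍ} (hK : ∀ i, IsCompact (K i)) (b b' : ℝ) :
    ∃ L : Set (X r), IsCompact L ∧ ∀ x : X r, (∀ i, x.1 i ∈ K i) → ‖TU D T x‖ ≤ b →
      ‖TU D' T.symm x‖ ≤ b' → x ∈ L := by
  obtain ⟨κ, C, hκ, hC⟩ := TUI_near h.set h.model
  obtain ⟨κ', C', hκ', hC'⟩ := TUI_near h.set.symm h.model'
  have hs : Subsingleton TFib.base.V := Module.finrank_zero_iff.1 h0
  have hsW : Subsingleton TFib.base.W := TFib.base.crd.injective.subsingleton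
  have hcW : IsCompact (univ : Set TFib.base.W) := subsingleton_univ.isCompact
  have hcK : IsCompact ((univ.pi K) ×ˢ (univ : Set TFib.base.W)) :=
    (isCompact_univ_pi hK).prod hcW
  obtain ⟨M, hM⟩ := hcK.exists_bound_of_continuousOn hκ.continuousOn
  obtain ⟨M', hM'⟩ := hcK.exists_bound_of_continuousOn hκ'.continuousOn
  obtain ⟨R, hR⟩ : ∃ R : ℝ, R = (C + (b + M)) + (C' + (b' + M')) := ⟨_, rfl⟩
  refine ⟨(univ.pi K) ×ˢ ((univ : Set TFib.base.W) ×ˢ Metric.closedBall (0 : Fin TFib.k → ℝ) R),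
    (isCompact_univ_pi hK).prod (hcW.prod (isCompact_closedBall _ _)), fun x hx hb hb' => ?_⟩
  refine ⟨fun i _ => hx i, mem_univ _, ?_⟩
  rw [mem_closedBall_zero_iff]
  have hm : ((x.1, x.2.1) : B r) ∈ (univ.pi K) ×ˢ (univ : Set TFib.base.W) :=
    ⟨fun i _ => hx i, mem_univ _⟩
  have h1 := hC (1, x)
  have h2 := hC' (1, x)
  rw [TUI_one] at h1 h2
  change ‖TU D T x - (D.sA.pr x.2.2 + κ (x.1, x.2.1))‖ ≤ C at h1
  change ‖TU D' T.symm x - (D'.sA.pr x.2.2 + κ' (x.1, x.2.1))‖ ≤ C' at h2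
  have h3 : x.2.2 = D.sA.pr x.2.2 + D'.sA.pr x.2.2 := by
    rw [pr_inv' h]
    abel
  have h4 : D.sA.pr x.2.2 = -(TU D T x - (D.sA.pr x.2.2 + κ (x.1, x.2.1))) +
      (TU D T x - κ (x.1, x.2.1)) := by abel
  have h5 : D'.sA.pr x.2.2 = -(TU D' T.symm x - (D'.sA.pr x.2.2 + κ' (x.1, x.2.1))) +
      (TU D' T.symm x - κ' (x.1, x.2.1)) := by abel
  have h6 : ‖D.sA.pr x.2.2‖ ≤ C + (b + M) := by
    rw [h4]
    refine (norm_add_le _ _).trans (add_le_add ?_ ?_)
    · rw [norm_neg]
      exact h1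
    · exact (norm_sub_le _ _).trans (add_le_add hb (hM _ hm))
  have h7 : ‖D'.sA.pr x.2.2‖ ≤ C' + (b' + M') := by
    rw [h5]
    refine (norm_add_le _ _).trans (add_le_add ?_ ?_)
    · rw [norm_neg]
      exact h2
    · exact (norm_sub_le _ _).trans (add_le_add hb' (hM' _ hm))
  rw [h3, hR]
  exact (norm_add_le _ _).trans (add_le_add h6 h7)

theorem norm_TU_le (T : X r ≃ₜ X r) (e : EE D.d) {x : X r} {b : ℝ}
    (hx : ‖Th D T x - e‖ ≤ b) : ‖TU D T x‖ ≤ ‖D.sA.pr‖ * (b + ‖e‖) := by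
  have h1 : TU D T x = D.sA.pr (Th D T x).1 := rfl
  rw [h1]
  refine (D.sA.pr.le_opNorm _).trans (mul_le_mul_of_nonneg_left ?_ (norm_nonneg _))
  refine (norm_fst_le _).trans ?_
  have h2 : Th D T x = (Th D T x - e) + e := by abel
  rw [h2]
  exact (norm_add_le _ _).trans (add_le_add hx le_rfl)

/-- The data of the regular point which belongs to a regular type with a level. -/
structure IsRP (F : ∀ i, Flat (S i)) (D : TData S) (D' : TData fun i => rev (S i))
    (T : X r ≃ₜ X r) (w : Fin r → ℍ) (c : VU D × VU D') (e : EE D.d) (e' : EE D'.d)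
    (R : RP (surf S) T ((Fin r → ℝ) × VU D) ((Fin r → ℝ) × VU D')) : Prop where
  a : R.a = ua F D T w c.1
  b : R.b = ua (fun i => (F i).rev) D' T.symm w c.2
  na : R.na = una F D T w e
  nb : R.nb = una (fun i => (F i).rev) D' T.symm w e'

theorem mem_NL_iff (h : Setting S T₀ T) {w' w'' : Fin r → ℍ} (hw' : ∀ i, (F i).Reg (w' i))
    (hw'' : ∀ i, (F i).Reg (w'' i)) {c : VU D × VU D'} {x : X r} :
    x ∈ NL F T (tu D T) (tu D' T.symm) w' w'' c ↔ ua F D T w' c.1 x = 0 ∧
      ua (fun i => (F i).rev) D' T.symm w'' c.2 x = 0 := by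
  have h1 : ua F D T w' c.1 x = 0 ↔ (fun i => su F T i (w' i) x) = 0 ∧ tu D T x - c.1 = 0 :=
    Prod.ext_iff
  have h2 : ua (fun i => (F i).rev) D' T.symm w'' c.2 x = 0 ↔
      (fun i => su (fun i => (F i).rev) T.symm i (w'' i) x) = 0 ∧
        tu D' T.symm x - c.2 = 0 := Prod.ext_iff
  rw [h1, h2, su_eq_zero h hw', su_eq_zero h.symm fun i => Flat.reg_rev.2 (hw'' i), sub_eq_zero,
    sub_eq_zero]
  constructor
  · rintro ⟨h3, h4, h5⟩
    exact ⟨⟨fun i => (h3 i).1, h4⟩, fun i => (h3 i).2, h5⟩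
  · rintro ⟨⟨h3, h4⟩, h5, h6⟩
    exact ⟨fun i => ⟨h3 i, h5 i⟩, h4, h6⟩

theorem exists_RP (h : Sit D D' T₀ T) (hU : ∀ i, FUnip (F i))
    (h0 : Module.finrank ℝ TFib.base.V = 0) {w : Fin r → ℍ} (hw : ∀ i, (F i).Reg (w i))
    {c : VU D × VU D'} (hc : RV F D D' T₀ w c) {q : X r}
    (hq : NL F T (tu D T) (tu D' T.symm) w w c = {q}) : ∃ e e' R, IsRP F D D' T w c e e' R := by
  obtain ⟨m₀, γ₀, δ₀, hc₀⟩ := hc
  obtain ⟨n₀, hn₀⟩ := exists_small h
  obtain ⟨γ, δ, hl, -⟩ := hc₀.pow h (n := n₀ + 1) n₀.succ_pos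
  obtain ⟨m, hm⟩ : ∃ m, m = m₀ * (n₀ + 1) := ⟨_, rfl⟩
  rw [← hm] at hl
  have hmn : n₀ ≤ m := by
    rw [hm]
    have h1 := hc₀.pos
    nlinarith
  obtain ⟨hJ, hJ'⟩ := hn₀ m hmn
  obtain ⟨T', H, h', hT', hH⟩ := exists_liftOf (S := S) T m hl.mem hl.mem'
  have he : ∀ i, (F i).Eqv (w i) (H i (w i)) := fun i => by
    rw [hH]
    exact hl.eqv i
  have hHw : ∀ i, H i (w i) = w i := fun i => Flat.eq_of_zero (hw i).1 (he i).1 (he i).2
  have hHw' : ∀ i, (H i).symm (w i) = w i := fun i => by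
    rw [Homeomorph.symm_apply_eq]
    exact (hHw i).symm
  have hwr : ∀ i, ((F i).rev).Reg (w i) := fun i => Flat.reg_rev.2 (hw i)
  have hqN : q ∈ NL F T (tu D T) (tu D' T.symm) w w c := by
    rw [hq]
    exact mem_singleton q
  have hs := h.set
  have hr := h.set.symm
  have h'r := h'.symm hs
  -- the two centers
  obtain ⟨e, hce⟩ := exists_center hs h.model hU (fun i => Or.inl (hw i)) hl.pos h' he
    (c := c.1) (fun x hx => by
      have h1 := hl.u T hs x hx
      rw [← hT'] at h1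
      exact h1) (q := q) (fun i => (hqN.1 i).1)
  obtain ⟨e', hce'⟩ := exists_center hr h.model' (F := fun i => (F i).rev)
    (fun i => (hU i).rev) (fun i => Or.inl (hwr i)) hl.pos h'r (fun i => by
      rw [hHw']
      exact ⟨((F i).rev).isTree_u.self _, ((F i).rev).isTree_s.self _⟩) (c := c.2)
    (fun x hx => by
      have h1 : ∀ i, DU (fun i => (F i).rev) T.symm i (Sum.inl (w i))
          (Sum.inr (T'.symm x)) = 0 := fun i =>
        DU_zero_lift (F := fun i => (F i).rev) hr h'r (by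
          rw [hHw']
          exact ((F i).rev).isTree_u.self _) (hx i)
      have h2 := hl.s T hs (T'.symm x) h1
      rw [← hT', T'.apply_symm_apply] at h2
      exact h2) (q := q) (fun i => (hqN.1 i).2)
  obtain ⟨La, hLa, hga⟩ := una_grow hs hw hl.pos h' hHw hce hJ
  obtain ⟨Lb, hLb, hgb⟩ := una_grow hr hwr hl.pos h'r hHw' hce' hJ'
  have hna : ∀ x, 0 ≤ una F D T w e x := fun x => una_nonneg e x
  have hnb : ∀ x, 0 ≤ una (fun i => (F i).rev) D' T.symm w e' x := fun x => una_nonneg e' x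
  have hgb' : ∀ x, Lb * una (fun i => (F i).rev) D' T.symm w e' (T' x) ≤
      una (fun i => (F i).rev) D' T.symm w e' x := fun x => by
    have h1 := hgb (T' x)
    rw [T'.symm_apply_apply] at h1
    exact h1
  have hqz := (mem_NL_iff hs hw hw).1 hqN
  have hfix : T' q = q := by
    have h1 : ua F D T w c.1 (T' q) = 0 := ua_zero hs hw h' hHw hce hqz.1
    have h2 : ua (fun i => (F i).rev) D' T.symm w c.2 (T' q) = 0 := by
      refine (una_zero hr hwr hce' _).1 (le_antisymm ?_ (hnb _))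
      have h3 := hgb' q
      rw [(una_zero hr hwr hce' q).2 hqz.2] at h3
      exact nonpos_of_mul_nonpos_right h3 (zero_lt_one.trans hLb)
    have h3 : T' q ∈ NL F T (tu D T) (tu D' T.symm) w w c := (mem_NL_iff hs hw hw).2 ⟨h1, h2⟩
    rw [hq] at h3
    exact h3
  -- the orbits
  have hita : ∀ x, ua F D T w c.1 x = 0 → ∀ n, ua F D T w c.1 (T'^[n] x) = 0 := by
    intro x hx n
    induction n with
    | zero => exact hx
    | succ n ih =>
      rw [Function.iterate_succ_apply']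
      exact ua_zero hs hw h' hHw hce ih
  have hitb : ∀ x, ua (fun i => (F i).rev) D' T.symm w c.2 x = 0 → ∀ n,
      ua (fun i => (F i).rev) D' T.symm w c.2 (T'.symm^[n] x) = 0 := by
    intro x hx n
    induction n with
    | zero => exact hx
    | succ n ih =>
      rw [Function.iterate_succ_apply']
      exact ua_zero hr hwr h'r hHw' hce' ih
  have hdeb : ∀ x n, una (fun i => (F i).rev) D' T.symm w e' (T'^[n] x) ≤
      una (fun i => (F i).rev) D' T.symm w e' x := by
    intro x n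
    induction n with
    | zero => exact le_rfl
    | succ n ih =>
      rw [Function.iterate_succ_apply']
      have h1 := hgb' (T'^[n] x)
      have h2 := hnb (T' (T'^[n] x))
      nlinarith
  have hdea : ∀ x n, una F D T w e (T'.symm^[n] x) ≤ una F D T w e x := by
    intro x n
    induction n with
    | zero => exact le_rfl
    | succ n ih =>
      rw [Function.iterate_succ_apply']
      have h1 := hga (T'.symm (T'.symm^[n] x))
      rw [T'.apply_symm_apply] at h1
      have h2 := hna (T'.symm (T'.symm^[n] x))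
      nlinarith
  refine ⟨e, e', { M := m
                   M_pos := hl.pos
                   g := dk γ δ
                   deck := isDeck_dk hl.mem hl.mem'
                   T := T'
                   T_eq := fun p => ?_
                   q := q
                   fix := hfix
                   a := ua F D T w c.1
                   b := ua (fun i => (F i).rev) D' T.symm w c.2
                   cont_a := continuous_ua hs h.model hw c.1
                   cont_b := continuous_ua hr h.model' hwr c.2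
                   na := una F D T w e
                   nb := una (fun i => (F i).rev) D' T.symm w e'
                   cont_na := continuous_una hs h.model hw e
                   cont_nb := continuous_una hr h.model' hwr e'
                   na_nonneg := hna
                   nb_nonneg := hnb
                   na_zero := una_zero hs hw hce
                   nb_zero := una_zero hr hwr hce'
                   L := min La Lb
                   one_lt := lt_min hLa hLb
                   grow_a := fun x => ?_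
                   grow_b := fun x => ?_
                   zero_a := fun x hx => ua_zero hs hw h' hHw hce hx
                   zero_b := fun x hx => ?_
                   hom_a := fun n => ua_hom hs hw hl.pos h' hHw hce n
                   hom_b := fun n => ua_hom hr hwr hl.pos h'r hHw' hce' n
                   uniq := fun x h1 h2 => ?_
                   bdd_a := fun x hx => ?_
                   bdd_b := fun x hx => ?_ }, rfl, rfl, rfl, rfl⟩
  · rw [hT', pow_apply_Apply]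
  · exact (mul_le_mul_of_nonneg_right (min_le_left _ _) (hna x)).trans (hga x)
  · exact (mul_le_mul_of_nonneg_right (min_le_right _ _) (hnb _)).trans (hgb' x)
  · have h1 := ua_zero hr hwr h'r hHw' hce' hx
    rw [T'.symm_apply_apply] at h1
    exact h1
  · have h3 : x ∈ NL F T (tu D T) (tu D' T.symm) w w c := (mem_NL_iff hs hw hw).2 ⟨h1, h2⟩
    rw [hq] at h3
    exact h3
  · choose K hK hK' using fun i : Fin r => orbit_u (F := F) hs h' (hw i) (hHw i)
      (DS F T i (Sum.inl (w i)) (Sum.inr x))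
    obtain ⟨L, hL, hL'⟩ := compact_tor h h0 hK ‖(c.1 : Fin TFib.k → ℝ)‖
      (‖D'.sA.pr‖ * (una (fun i => (F i).rev) D' T.symm w e' x + ‖e'‖))
    have hx1 : ∀ i, DU F T i (Sum.inl (w i)) (Sum.inr x) = 0 :=
      (su_eq_zero hs hw).1 (congrArg Prod.fst hx)
    refine ⟨L, hL, fun n => hL' _ (fun i => hK' i x (hx1 i) le_rfl n) ?_ ?_⟩
    · have h1 : tu D T (T'^[n] x) - c.1 = 0 := congrArg Prod.snd (hita x hx n)
      rw [← coe_tu, sub_eq_zero.1 h1]
    · exact norm_TU_le T.symm e' ((le_max_right _ _).trans (hdeb x n))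
  · choose K hK hK' using fun i : Fin r => orbit_s (F := F) hs h' (hw i) (hHw i)
      (DU F T i (Sum.inl (w i)) (Sum.inr x))
    obtain ⟨L, hL, hL'⟩ := compact_tor h h0 hK (‖D.sA.pr‖ * (una F D T w e x + ‖e‖))
      ‖(c.2 : Fin TFib.k → ℝ)‖
    have hx1 : ∀ i, DS F T i (Sum.inl (w i)) (Sum.inr x) = 0 :=
      (su_eq_zero hr hwr).1 (congrArg Prod.fst hx)
    refine ⟨L, hL, fun n => hL' _ (fun i => hK' i x (hx1 i) le_rfl n) ?_ ?_⟩
    · exact norm_TU_le T e ((le_max_right _ _).trans (hdea x n))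
    · have h1 : tu D' T.symm (T'.symm^[n] x) - c.2 = 0 := congrArg Prod.snd (hitb x hx n)
      rw [← coe_tu, sub_eq_zero.1 h1]

theorem cross_of (h : Sit D D' T₀ T) {w' w'' : Fin r → ℍ} (hw' : ∀ i, (F i).Reg (w' i))
    (hw'' : ∀ i, (F i).Reg (w'' i)) {c' c'' : VU D × VU D'} {e' e'' : EE D.d}
    {d' d'' : EE D'.d}
    {R' R'' : RP (surf S) T ((Fin r → ℝ) × VU D) ((Fin r → ℝ) × VU D')}
    (h' : IsRP F D D' T w' c' e' d' R') (h'' : IsRP F D D' T w'' c'' e'' d'' R'') :
    Cross R' R'' := by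
  constructor
  · intro K hK
    obtain ⟨C, hC⟩ := una_le (F := fun i => (F i).rev) h.set.symm
      (fun i => Flat.reg_rev.2 (hw' i)) (fun i => Flat.reg_rev.2 (hw'' i)) d' d''
    obtain ⟨M, hM⟩ := hK.exists_bound_of_continuousOn R''.cont_nb.continuousOn
    refine ⟨C + M, fun y hy n => ?_⟩
    have h1 := hC (R''.T^[n] y)
    rw [← h'.nb, ← h''.nb] at h1
    have h2 := R''.norm_b_iter n y
    have h3 : (1 : ℝ) ≤ R''.L ^ n := one_le_pow₀ R''.one_lt.le
    have h4 := R''.nb_nonneg (R''.T^[n] y)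
    have h5 := (le_abs_self _).trans (hM y hy)
    nlinarith
  · intro K hK
    obtain ⟨C, hC⟩ := una_le (F := F) h.set hw'' hw' e'' e'
    obtain ⟨M, hM⟩ := hK.exists_bound_of_continuousOn R'.cont_na.continuousOn
    refine ⟨C + M, fun y hy n => ?_⟩
    have h1 := hC (R'.T.symm^[n] y)
    rw [← h'.na, ← h''.na] at h1
    have h2 := R'.norm_a_iter n (R'.T.symm^[n] y)
    rw [R'.iter_symm] at h2
    have h3 : (1 : ℝ) ≤ R'.L ^ n := one_le_pow₀ R'.one_lt.le
    have h4 := R'.na_nonneg (R'.T.symm^[n] y)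
    have h5 := (le_abs_self _).trans (hM y hy)
    nlinarith

/-- If there is a connection then the leaves in all the surfaces meet. -/
theorem meet (h : Sit D D' T₀ T) (hA : IsAnosovLift (surf S) T) (hU : ∀ i, FUnip (F i))
    (hN : ∀ w, (∀ i, (F i).Reg (w i)) → ∀ c, RV F D D' T₀ w c →
      ∃ q, NL F T (tu D T) (tu D' T.symm) w w c = {q})
    (h0 : Module.finrank ℝ TFib.base.V = 0) {w' w'' : Fin r → ℍ}
    (hw' : ∀ i, (F i).Reg (w' i)) (hw'' : ∀ i, (F i).Reg (w'' i)) {c' c'' : VU D × VU D'}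
    (hc' : RV F D D' T₀ w' c') (hc'' : RV F D D' T₀ w'' c'')
    (hne : (NL F T (tu D T) (tu D' T.symm) w' w'' (c'.1, c''.2)).Nonempty) (i : Fin r) :
    ∃ z, (F i).du (w' i) z = 0 ∧ (F i).ds (w'' i) z = 0 := by
  by_contra hcon
  push Not at hcon
  obtain ⟨x, hx⟩ := hne
  obtain ⟨H⟩ := exists_hyp hA
  obtain ⟨s, u, hsu, hrank⟩ := A2.Dim.rank_const H.cont H.proj
  obtain ⟨q', hq'⟩ := hN w' hw' c' hc'
  obtain ⟨q'', hq''⟩ := hN w'' hw'' c'' hc''
  obtain ⟨e', d', R', hR'⟩ := exists_RP h hU h0 hw' hc' hq'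
  obtain ⟨e'', d'', R'', hR''⟩ := exists_RP h hU h0 hw'' hc'' hq''
  have hcr := cross_of h hw' hw'' hR' hR''
  have hV := finrank_V
  have hVU := finrank_VU h
  have fE : Module.finrank ℝ (E r) = Module.finrank ℝ ((Fin u → ℝ) × (Fin s → ℝ)) := by
    rw [A2.Dim.finrank_E, Module.finrank_prod, Module.finrank_fintype_fun_eq_card,
      Module.finrank_fintype_fun_eq_card, Fintype.card_fin, Fintype.card_fin]
    omega
  have fA : Module.finrank ℝ (((Fin r → ℝ) × VU D) × ((Fin r → ℝ) × VU D')) =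
      Module.finrank ℝ ((Fin u → ℝ) × (Fin s → ℝ)) := by
    rw [← fE, A2.Dim.finrank_E, Module.finrank_prod, Module.finrank_prod, Module.finrank_prod,
      Module.finrank_fintype_fun_eq_card, Fintype.card_fin]
    omega
  have hi : 0 < r := i.pos
  have : Nonempty (Fin r) := ⟨i⟩
  have : Nontrivial (Fin r → ℝ) := Function.nontrivial
  have : Nontrivial ((Fin u → ℝ) × (Fin s → ℝ)) := by
    refine Module.nontrivial_of_finrank_pos (R := ℝ) ?_
    rw [← fE, A2.Dim.finrank_E]
    omega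
  have C₀ : E r ≃L[ℝ] (Fin u → ℝ) × (Fin s → ℝ) := ContinuousLinearEquiv.ofFinrankEq fE
  have Θ : (((Fin r → ℝ) × VU D) × ((Fin r → ℝ) × VU D')) ≃L[ℝ]
    (Fin u → ℝ) × (Fin s → ℝ) := ContinuousLinearEquiv.ofFinrankEq fA
  have hs : Subsingleton TFib.base.V := Module.finrank_zero_iff.1 h0
  obtain ⟨L, -, -, hL⟩ := exists_splitEquiv h
  let P : TPair S T₀ := ⟨D, D', h.hyp, h.inv, h.model, h.model'⟩
  have hJ : ∀ x, L.symm (tu D T x, tu D' T.symm x) = P.U T x + P.V T x := fun x => hL _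
  refine no_conn H R' R'' (E₁ := Fin u → ℝ) (E₂ := Fin s → ℝ) ?_ ?_ hcr C₀ Θ ?_ ?_ ?_ x ?_
  · intro p
    have h2 := (hrank p).1
    have h3 := LinearMap.finrank_range_add_finrank_ker (H.P p).toLinearMap
    rw [A2.Dim.finrank_E, h2] at h3
    rw [Module.finrank_fintype_fun_eq_card, Fintype.card_fin]
    omega
  · intro p
    rw [Module.finrank_fintype_fun_eq_card, Fintype.card_fin]
    exact (hrank p).1
  · rw [hR'.a, hR'.b]
    exact Tot.total_full_self hs P h.set (J := L.symm) hJ C₀ Θ hw' c'.1 c'.2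
  · rw [hR''.a, hR''.b]
    exact Tot.total_full_self hs P h.set (J := L.symm) hJ C₀ Θ hw'' c''.1 c''.2
  · rw [hR'.a, hR''.b]
    exact Tot.total_full_zero hs P h.set (J := L.symm) hJ C₀ Θ hw' hw'' c'.1 c''.2
      (i := i) fun z hz => hcon z hz.1 hz.2
  · rw [hR'.a, hR''.b]
    exact (mem_NL_iff h.set hw' hw'').1 hx

end Pool.Agent.ANO5.A3.Conn
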