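import Pool.Agent.ANO5.A3.Conn.Defs

/-!
# ANO5, module Conn: the chart near `q` (package CONN-LOC)

`c x = C (toE x - toE q)`, `c q = 0`, `c` is an open embedding of `X r` in `E₁ × E₂`
(`Idx.isOpenEmbedding_toE`).

`ball`: `dom r` is open, so for small `ρ` every `v` with `‖v‖ ≤ ρ` is `c x`,
`x = ofE (toE q + C.symm v)`; `{x | ‖c x‖ ≤ ρ}` is the image of the closed ball under the
continuous map `v ↦ ofE (toE q + C.symm v)`.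

`est`: `f = c ∘ T ∘ (v ↦ ofE (toE q + C.symm v))` is differentiable at `0` with the derivative
`D = C ∘ tmap T q ∘ C.symm`. By `hC` and `H.comm`, `H.deck` (so `P q` commutes with `tmap T q`:
`P (T q) ∘ tmap T q = tmap T q ∘ P q`, see `A2.Idx.pow_inv`) the map `D` is a product
`(v₁, v₂) ↦ (D₁ v₁, D₂ v₂)` with `8 ‖v₁‖ ≤ ‖D₁ v₁‖` and `8 ‖D₂ v₂‖ ≤ ‖v₂‖`. For small `‖v‖` we
have `‖f v - D v‖ ≤ ‖v‖ / 100` (`HasFDerivAt`, `isLittleO`). If `‖v₂‖ ≤ ‖v₁‖` then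
`‖v‖ = ‖v₁‖` and `‖(f v).1‖ ≥ (8 - 1/100) ‖v₁‖`, `‖(f v).2‖ ≤ (1/8 + 1/100) ‖v₁‖`. If
`‖v₁‖ ≤ ‖v₂‖` then `‖(f v).2‖ ≤ (1/8 + 1/100) ‖v₂‖`. In the same way for `T.symm`, whose
derivative at `q` is the inverse of `tmap T q` (`T.symm = (F ^ M).symm ∘ h`, `h` the inverse deck
transformation of `g`; `Idx.tmap_comp`, `Idx.tmap_id`; `contDiffOn_pow_symm`).

`inj`: at `q`: `‖w‖ ≤ ‖C.symm‖ ‖C w‖`; let `‖P x - P q‖ ≤ 1/2` near `q`. If `P x v = v` then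
`‖v - P q v‖ ≤ ‖v‖ / 2` and `‖P q v‖ ≤ ‖C.symm‖ ‖C (P q v)‖ = ‖C.symm‖ ‖(C v).1‖`. If `P x v = 0`
then `‖P q v‖ ≤ ‖v‖ / 2`, `C (v - P q v) = (0, (C v).2)`. So `κ = 2 ‖C.symm‖`.
-/

set_option autoImplicit false
set_option linter.unusedSectionVars false

open Set Filter Topology

namespace Pool.Agent.ANO5.A3.Conn

variable [Fib]

open Pool.Agent.ANO3 Pool.Agent.ANO5.A1 Pool.Agent.ANO5.A2

variable {r : ℕ} {S : Fin r → ClosedSurface} {F : X r ≃ₜ X r}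
variable {A₁ A₂ : Type} [NormedAddCommGroup A₁] [NormedSpace ℝ A₁]
  [NormedAddCommGroup A₂] [NormedSpace ℝ A₂]
variable {E₁ E₂ : Type} [NormedAddCommGroup E₁] [NormedSpace ℝ E₁]
  [NormedAddCommGroup E₂] [NormedSpace ℝ E₂] [FiniteDimensional ℝ E₁] [FiniteDimensional ℝ E₂]
variable {H : Hyp S F} {R : RP S F A₁ A₂}

theorem Chart.c_q (Ch : Chart E₁ E₂ H R) : Ch.c R.q = 0 := by
  simp [Chart.c]

private theorem embedding_Loc (Ch : Chart E₁ E₂ H R) : IsOpenEmbedding Ch.c := by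
  have h1 : IsOpenEmbedding fun x : E r => Ch.C (x - toE R.q) := by
    have h2 : IsOpenEmbedding fun x : E r => x - toE R.q :=
      (Homeomorph.subRight (toE R.q)).isOpenEmbedding
    exact Ch.C.toHomeomorph.isOpenEmbedding.comp h2
  exact h1.comp Idx.isOpenEmbedding_toE

theorem Chart.cont (Ch : Chart E₁ E₂ H R) : Continuous Ch.c :=
  (embedding_Loc Ch).continuous

theorem Chart.inj (Ch : Chart E₁ E₂ H R) : Function.Injective Ch.c :=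
  (embedding_Loc Ch).injective

private theorem preimage_Loc (Ch : Chart E₁ E₂ H R) (ρ : ℝ) :
    {x | ‖Ch.c x‖ ≤ ρ} = Ch.c ⁻¹' Metric.closedBall 0 ρ := by
  ext x
  show ‖Ch.c x‖ ≤ ρ ↔ Ch.c x ∈ Metric.closedBall 0 ρ
  rw [mem_closedBall_zero_iff]

/-- balls in the chart are neighbourhoods, and form a basis -/
theorem Chart.basis (Ch : Chart E₁ E₂ H R) : (𝓝 R.q).HasBasis (fun ρ : ℝ => 0 < ρ)
    fun ρ => {x | ‖Ch.c x‖ ≤ ρ} := by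
  have h1 := (embedding_Loc Ch).isInducing.nhds_eq_comap R.q
  rw [Ch.c_q] at h1
  rw [h1]
  have h2 := (Metric.nhds_basis_closedBall (x := (0 : E₁ × E₂))).comap Ch.c
  simp only [preimage_Loc]
  exact h2

theorem Chart.ball (Ch : Chart E₁ E₂ H R) : ∃ ρ₀ > 0, ∀ ρ ≤ ρ₀, IsCompact {x | ‖Ch.c x‖ ≤ ρ} ∧
    ∀ v, ‖v‖ ≤ ρ → ∃ x, Ch.c x = v := by
  have h1 : range Ch.c ∈ 𝓝 (0 : E₁ × E₂) :=
    (embedding_Loc Ch).isOpen_range.mem_nhds ⟨R.q, Ch.c_q⟩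
  obtain ⟨ρ₀, hρ₀, hsub⟩ := Metric.nhds_basis_closedBall.mem_iff.1 h1
  have : ProperSpace (E₁ × E₂) := FiniteDimensional.proper ℝ (E₁ × E₂)
  refine ⟨ρ₀, hρ₀, fun ρ hρ => ?_⟩
  have h2 : Metric.closedBall (0 : E₁ × E₂) ρ ⊆ range Ch.c :=
    (Metric.closedBall_subset_closedBall hρ).trans hsub
  refine ⟨?_, fun v hv => h2 (by simpa using hv)⟩
  rw [preimage_Loc]
  exact ((embedding_Loc Ch).isInducing.isCompact_preimage_iff h2).2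
    (isCompact_closedBall (0 : E₁ × E₂) ρ)

/-- the first order approximation of a map with the fixed point `q` in the chart -/
private theorem approx_Loc (Ch : Chart E₁ E₂ H R) {G : X r → X r}
    (hG : ContDiffOn ℝ 1 (loc G) (dom r)) (hq : G R.q = R.q) {ε : ℝ} (hε : 0 < ε) :
    ∀ᶠ x in 𝓝 R.q, ‖Ch.c (G x) - Ch.C (tmap G R.q (toE x - toE R.q))‖ ≤ ε * ‖Ch.c x‖ := by
  have h1 := (Idx.hasFDerivAt_loc hG R.q).isLittleO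
  have h2 : Tendsto (toE : X r → E r) (𝓝 R.q) (𝓝 (toE R.q)) :=
    Idx.continuous_toE.continuousAt
  have h3 := h1.comp_tendsto h2
  obtain ⟨a, ha, hCa⟩ : ∃ a : ℝ, 0 < a ∧ ∀ v, ‖Ch.C v‖ ≤ a * ‖v‖ := by
    refine ⟨‖(Ch.C : E r →L[ℝ] E₁ × E₂)‖ + 1, by positivity, fun v => ?_⟩
    have h4 := (Ch.C : E r →L[ℝ] E₁ × E₂).le_opNorm v
    have h5 := norm_nonneg v
    have h6 : ‖Ch.C v‖ = ‖(Ch.C : E r →L[ℝ] E₁ × E₂) v‖ := rfl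
    rw [h6]
    nlinarith
  obtain ⟨b, hb, hCb⟩ : ∃ b : ℝ, 0 < b ∧ ∀ v, ‖v‖ ≤ b * ‖Ch.C v‖ := by
    refine ⟨‖(Ch.C.symm : E₁ × E₂ →L[ℝ] E r)‖ + 1, by positivity, fun v => ?_⟩
    have h4 := (Ch.C.symm : E₁ × E₂ →L[ℝ] E r).le_opNorm (Ch.C v)
    have h5 := norm_nonneg (Ch.C v)
    have h6 : v = (Ch.C.symm : E₁ × E₂ →L[ℝ] E r) (Ch.C v) :=
      (Ch.C.symm_apply_apply v).symm
    rw [← h6] at h4
    nlinarith
  have h4 := h3.def (show 0 < ε / (a * b) by positivity)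
  filter_upwards [h4] with x hx
  simp only [Function.comp_apply, Idx.loc_toE, hq] at hx
  have h5 : Ch.c (G x) - Ch.C (tmap G R.q (toE x - toE R.q)) =
      Ch.C (toE (G x) - toE R.q - tmap G R.q (toE x - toE R.q)) := by
    rw [Chart.c, map_sub Ch.C (toE (G x) - toE R.q)]
  have h6 : ‖toE x - toE R.q‖ ≤ b * ‖Ch.c x‖ := hCb _
  rw [h5]
  calc _ ≤ a * ‖toE (G x) - toE R.q - tmap G R.q (toE x - toE R.q)‖ := hCa _
    _ ≤ a * (ε / (a * b) * ‖toE x - toE R.q‖) := by gcongr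
    _ ≤ a * (ε / (a * b) * (b * ‖Ch.c x‖)) := by gcongr
    _ = ε * ‖Ch.c x‖ := by field_simp

private theorem fst_Loc {u v : E₁ × E₂} {δ : ℝ} (h : ‖u - v‖ ≤ δ) :
    ‖u.1‖ ≤ ‖v.1‖ + δ ∧ ‖v.1‖ ≤ ‖u.1‖ + δ := by
  have h1 : ‖u.1 - v.1‖ ≤ δ := (norm_fst_le (u - v)).trans h
  have h2 := norm_sub_norm_le u.1 v.1
  have h3 := norm_sub_norm_le v.1 u.1
  rw [norm_sub_rev] at h3
  exact ⟨by linarith, by linarith⟩

private theorem snd_Loc {u v : E₁ × E₂} {δ : ℝ} (h : ‖u - v‖ ≤ δ) :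
    ‖u.2‖ ≤ ‖v.2‖ + δ ∧ ‖v.2‖ ≤ ‖u.2‖ + δ := by
  have h1 : ‖u.2 - v.2‖ ≤ δ := (norm_snd_le (u - v)).trans h
  have h2 := norm_sub_norm_le u.2 v.2
  have h3 := norm_sub_norm_le v.2 u.2
  rw [norm_sub_rev] at h3
  exact ⟨by linarith, by linarith⟩

private theorem smooth_Loc (H : Hyp S F) (R : RP S F A₁ A₂) :
    ContDiffOn ℝ 1 (loc R.T) (dom r) ∧ ContDiffOn ℝ 1 (loc R.T.symm) (dom r) := by
  have h1 : (R.T : X r → X r) = R.g ∘ (F ^ R.M : X r ≃ₜ X r) := funext R.T_eq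
  obtain ⟨h, hh, e1, e2⟩ := Idx.deck_inv R.deck
  have h2 : (R.T.symm : X r → X r) = (F ^ R.M : X r ≃ₜ X r).symm ∘ h := by
    funext x
    rw [Homeomorph.symm_apply_eq, R.T_eq, Function.comp_apply, Homeomorph.apply_symm_apply, e2]
  refine ⟨?_, ?_⟩
  · rw [h1]
    exact Idx.contDiffOn_T H.lift R.M R.deck
  · rw [h2]
    exact Idx.contDiffOn_comp (Idx.contDiffOn_pow_symm H.lift.2.1 R.M) (Idx.deck_contDiffOn hh)

theorem Chart.est (Ch : Chart E₁ E₂ H R) : ∃ ρ₀ > 0, ∀ x, ‖Ch.c x‖ ≤ ρ₀ →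
    (‖(Ch.c x).2‖ ≤ ‖(Ch.c x).1‖ → 4 * ‖(Ch.c x).1‖ ≤ ‖(Ch.c (R.T x)).1‖ ∧
      ‖(Ch.c (R.T x)).2‖ ≤ ‖(Ch.c (R.T x)).1‖) ∧
    (‖(Ch.c x).1‖ ≤ ‖(Ch.c x).2‖ → 4 * ‖(Ch.c (R.T x)).2‖ ≤ ‖(Ch.c x).2‖) ∧
    (‖(Ch.c x).1‖ ≤ ‖(Ch.c x).2‖ → 4 * ‖(Ch.c x).2‖ ≤ ‖(Ch.c (R.T.symm x)).2‖ ∧
      ‖(Ch.c (R.T.symm x)).1‖ ≤ ‖(Ch.c (R.T.symm x)).2‖) ∧
    (‖(Ch.c x).2‖ ≤ ‖(Ch.c x).1‖ → 4 * ‖(Ch.c (R.T.symm x)).1‖ ≤ ‖(Ch.c x).1‖) := by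
  obtain ⟨hT, hT'⟩ := smooth_Loc H R
  have hq' : R.T.symm R.q = R.q := by rw [Homeomorph.symm_apply_eq, R.fix]
  have hid : ∀ v, tmap R.T R.q (tmap R.T.symm R.q v) = v := by
    intro v
    have h1 := Idx.tmap_comp hT hT' R.q
    have h2 : (R.T : X r → X r) ∘ (R.T.symm : X r → X r) = id :=
      funext fun p => R.T.apply_symm_apply p
    rw [h2, Idx.tmap_id, hq'] at h1
    exact (congrArg (fun L : E r →L[ℝ] E r => L v) h1).symm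
  have e1 := approx_Loc Ch hT R.fix (show (0 : ℝ) < 1 / 100 by norm_num)
  have e2 := approx_Loc Ch hT' hq' (show (0 : ℝ) < 1 / 100 by norm_num)
  obtain ⟨ρ₀, hρ₀, hsub⟩ := Ch.basis.mem_iff.1 (e1.and e2)
  refine ⟨ρ₀, hρ₀, fun x hx => ?_⟩
  obtain ⟨a1, a2⟩ := hsub hx
  have s1 := Ch.step_u (toE x - toE R.q)
  have s2 := Ch.step_s (toE x - toE R.q)
  have s3 := Ch.step_u (tmap R.T.symm R.q (toE x - toE R.q))
  have s4 := Ch.step_s (tmap R.T.symm R.q (toE x - toE R.q))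
  rw [hid] at s3 s4
  change 8 * ‖(Ch.c x).1‖ ≤ _ at s1
  change _ ≤ ‖(Ch.c x).2‖ at s2
  change _ ≤ ‖(Ch.c x).1‖ at s3
  change 8 * ‖(Ch.c x).2‖ ≤ _ at s4
  obtain ⟨f1, f2⟩ := fst_Loc a1
  obtain ⟨f3, f4⟩ := snd_Loc a1
  obtain ⟨f5, f6⟩ := fst_Loc a2
  obtain ⟨f7, f8⟩ := snd_Loc a2
  have n1 := norm_nonneg (Ch.c x).1
  have n2 := norm_nonneg (Ch.c x).2
  have n3 : ‖Ch.c x‖ = max ‖(Ch.c x).1‖ ‖(Ch.c x).2‖ := Prod.norm_def _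
  refine ⟨fun h => ?_, fun h => ?_, fun h => ?_, fun h => ?_⟩
  · rw [max_eq_left h] at n3
    exact ⟨by linarith, by linarith⟩
  · rw [max_eq_right h] at n3
    linarith
  · rw [max_eq_right h] at n3
    exact ⟨by linarith, by linarith⟩
  · rw [max_eq_left h] at n3
    linarith

theorem Chart.injPQ (Ch : Chart E₁ E₂ H R) : ∃ κ : ℝ, 0 < κ ∧ ∃ ρ₀ > 0, ∀ x, ‖Ch.c x‖ ≤ ρ₀ →
    (∀ v, H.P x v = v → ‖v‖ ≤ κ * ‖(Ch.C v).1‖) ∧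
      ∀ v, H.P x v = 0 → ‖v‖ ≤ κ * ‖(Ch.C v).2‖ := by
  obtain ⟨b, hb, hCb⟩ : ∃ b : ℝ, 0 < b ∧ ∀ v, ‖v‖ ≤ b * ‖Ch.C v‖ := by
    refine ⟨‖(Ch.C.symm : E₁ × E₂ →L[ℝ] E r)‖ + 1, by positivity, fun v => ?_⟩
    have h4 := (Ch.C.symm : E₁ × E₂ →L[ℝ] E r).le_opNorm (Ch.C v)
    have h5 := norm_nonneg (Ch.C v)
    have h6 : v = (Ch.C.symm : E₁ × E₂ →L[ℝ] E r) (Ch.C v) :=
      (Ch.C.symm_apply_apply v).symm
    rw [← h6] at h4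
    nlinarith
  have h1 : ∀ᶠ x in 𝓝 R.q, ‖H.P x - H.P R.q‖ ≤ 1 / 2 := by
    have h2 : Tendsto (fun x => ‖H.P x - H.P R.q‖) (𝓝 R.q) (𝓝 0) := by
      have h3 : Continuous fun x => ‖H.P x - H.P R.q‖ := (H.cont.sub continuous_const).norm
      have h4 := h3.tendsto R.q
      simpa using h4
    exact h2.eventually_le_const (by norm_num)
  obtain ⟨ρ₀, hρ₀, hsub⟩ := Ch.basis.mem_iff.1 h1
  refine ⟨2 * b, by positivity, ρ₀, hρ₀, fun x hx => ?_⟩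
  have h2 : ‖H.P x - H.P R.q‖ ≤ 1 / 2 := hsub hx
  have h3 : ∀ v, ‖H.P x v - H.P R.q v‖ ≤ 1 / 2 * ‖v‖ := fun v => by
    have h4 := (H.P x - H.P R.q).le_opNorm v
    have h5 : ‖H.P x - H.P R.q‖ * ‖v‖ ≤ 1 / 2 * ‖v‖ :=
      mul_le_mul_of_nonneg_right h2 (norm_nonneg v)
    exact h4.trans h5
  refine ⟨fun v hv => ?_, fun v hv => ?_⟩
  · have h4 := h3 v
    rw [hv] at h4
    have h5 := norm_sub_norm_le v (H.P R.q v)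
    have h6 := hCb (H.P R.q v)
    have h7 : ‖Ch.C (H.P R.q v)‖ = ‖(Ch.C v).1‖ := by
      rw [Ch.hC, Prod.norm_def]
      simp
    rw [h7] at h6
    linarith
  · have h4 := h3 v
    rw [hv, zero_sub, norm_neg] at h4
    have h5 := norm_sub_norm_le v (H.P R.q v)
    have h6 := hCb (v - H.P R.q v)
    have h7 : ‖Ch.C (v - H.P R.q v)‖ = ‖(Ch.C v).2‖ := by
      rw [map_sub, Ch.hC, Prod.norm_def]
      simp
    rw [h7] at h6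
    linarith

end Pool.Agent.ANO5.A3.Conn
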