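import Pool.Agent.ANO3.Deg.Cover
import Pool.Agent.ANO3.Deg.Lin
import Pool.Agent.ANO3.Deg.Prod
import Pool.Agent.ANO5.A2.Idx.Ano
import Pool.Agent.ANO5.A3.Conn.Total

/-!
# ANO5, module Conn: connections between regular points, definitions

A regular point `R : RP S F A₁ A₂` is a fixed point `q` of a lift `T = g ∘ F ^ M` with two
continuous functions `a : X → A₁` (zero exactly on the stable set of `q`) and `b : X → A₂` (zero
exactly on the unstable set). There are continuous functions `na`, `nb ≥ 0` with the same zeros;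
`T` expands `na` and contracts `nb`. The maps `a ∘ T^n`, `b ∘ T^(-n)` are linearly homotopic to
`Λ ∘ a`, `Λ' ∘ b` with linear isomorphisms `Λ`, `Λ'`, without new zeros.
We count the common zeros of `R'.a` and `R''.b`. The linear coordinates of the vector space
`E r ⊇ X r` are in `E₁ × E₂` (`dim E₁ = dim E^u`, `dim E₂ = dim E^s`); at the end it turns out
that the dimensions of `E₁` and `E₂` are those of `A₁` and `A₂`.
-/

set_option autoImplicit false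

open Set Filter Topology

namespace Pool.Agent.ANO5.A3.Conn

variable [Fib]

open Pool.Agent.ANO3 Pool.Agent.ANO5.A1 Pool.Agent.ANO5.A2

variable {r : ℕ} {S : Fin r → ClosedSurface} {F : X r ≃ₜ X r}

/-- The data of an Anosov lift. -/
structure Hyp (S : Fin r → ClosedSurface) (F : X r ≃ₜ X r) where
  lift : IsAnosovLift S F
  P : X r → (E r →L[ℝ] E r)
  cont : Continuous P
  proj : ∀ p, P p ∘L P p = P p
  deck : ∀ g, IsDeck S g → ∀ p, P (g p) ∘L tmap g p = tmap g p ∘L P p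
  comm : ∀ p, P (F p) ∘L tmap F p = tmap F p ∘L P p
  C : ℝ
  μ : ℝ
  C_pos : 0 < C
  μ_pos : 0 < μ
  μ_lt : μ < 1
  est : ∀ (n : ℕ) (p : X r) (v : E r),
    (P p v = 0 → tnorm ((F ^ n) p) (tmap (F ^ n : X r ≃ₜ X r) p v) ≤ C * μ ^ n * tnorm p v) ∧
    (P p v = v → tnorm ((F ^ n).symm p) (tmap (F ^ n : X r ≃ₜ X r).symm p v) ≤
      C * μ ^ n * tnorm p v)

theorem exists_hyp (h : IsAnosovLift S F) : Nonempty (Hyp S F) := by
  have h0 := h
  obtain ⟨-, -, -, -, P, h1, h2, h3, h4, C, μ, h5, h6, h7, h8⟩ := h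
  exact ⟨⟨h0, P, h1, h2, h3, h4, C, μ, h5, h6, h7, h8⟩⟩

variable {A₁ A₂ : Type} [NormedAddCommGroup A₁] [NormedSpace ℝ A₁]
  [NormedAddCommGroup A₂] [NormedSpace ℝ A₂]

variable (A₁ A₂ S F) in
/-- A regular point: a fixed point `q` of a lift `T` of a power of `F`, with the functions `a`
(unstable coordinates) and `b` (stable coordinates). -/
structure RP where
  M : ℕ
  M_pos : 0 < M
  g : X r → X r
  deck : IsDeck S g
  T : X r ≃ₜ X r
  T_eq : ∀ p, T p = g ((F ^ M) p)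
  q : X r
  fix : T q = q
  a : X r → A₁
  b : X r → A₂
  cont_a : Continuous a
  cont_b : Continuous b
  na : X r → ℝ
  nb : X r → ℝ
  cont_na : Continuous na
  cont_nb : Continuous nb
  na_nonneg : ∀ x, 0 ≤ na x
  nb_nonneg : ∀ x, 0 ≤ nb x
  na_zero : ∀ x, na x = 0 ↔ a x = 0
  nb_zero : ∀ x, nb x = 0 ↔ b x = 0
  L : ℝ
  one_lt : 1 < L
  grow_a : ∀ x, L * na x ≤ na (T x)
  grow_b : ∀ x, L * nb (T x) ≤ nb x
  zero_a : ∀ x, a x = 0 → a (T x) = 0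
  zero_b : ∀ x, b (T x) = 0 → b x = 0
  hom_a : ∀ n : ℕ, ∃ Λ : A₁ ≃L[ℝ] A₁, ∀ x, ∀ t ∈ Icc (0 : ℝ) 1,
    (1 - t) • a (T^[n] x) + t • Λ (a x) = 0 → a x = 0
  hom_b : ∀ n : ℕ, ∃ Λ : A₂ ≃L[ℝ] A₂, ∀ x, ∀ t ∈ Icc (0 : ℝ) 1,
    (1 - t) • b (T.symm^[n] x) + t • Λ (b x) = 0 → b x = 0
  uniq : ∀ x, a x = 0 → b x = 0 → x = q
  bdd_a : ∀ x, a x = 0 → ∃ K, IsCompact K ∧ ∀ n : ℕ, T^[n] x ∈ K
  bdd_b : ∀ x, b x = 0 → ∃ K, IsCompact K ∧ ∀ n : ℕ, T.symm^[n] x ∈ K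

namespace RP

theorem na_q (R : RP S F A₁ A₂) : R.na R.q = 0 := by
  have h2 := R.grow_a R.q
  rw [R.fix] at h2
  have h3 := R.one_lt
  have h4 := R.na_nonneg R.q
  nlinarith

theorem nb_q (R : RP S F A₁ A₂) : R.nb R.q = 0 := by
  have h2 := R.grow_b R.q
  rw [R.fix] at h2
  have h3 := R.one_lt
  have h4 := R.nb_nonneg R.q
  nlinarith

theorem a_q (R : RP S F A₁ A₂) : R.a R.q = 0 := (R.na_zero _).1 R.na_q

theorem b_q (R : RP S F A₁ A₂) : R.b R.q = 0 := (R.nb_zero _).1 R.nb_q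

theorem a_T_eq_zero (R : RP S F A₁ A₂) (x : X r) : R.a (R.T x) = 0 ↔ R.a x = 0 := by
  refine ⟨fun h => (R.na_zero x).1 ?_, R.zero_a x⟩
  have h1 := (R.na_zero (R.T x)).2 h
  have h2 := R.grow_a x
  rw [h1] at h2
  have h3 := R.one_lt
  have h4 := R.na_nonneg x
  nlinarith

theorem b_T_eq_zero (R : RP S F A₁ A₂) (x : X r) : R.b (R.T x) = 0 ↔ R.b x = 0 := by
  refine ⟨R.zero_b x, fun h => (R.nb_zero (R.T x)).1 ?_⟩
  have h1 := (R.nb_zero x).2 h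
  have h2 := R.grow_b x
  rw [h1] at h2
  have h3 := R.one_lt
  have h4 := R.nb_nonneg (R.T x)
  nlinarith

theorem a_iter_eq_zero (R : RP S F A₁ A₂) (n : ℕ) (x : X r) :
    R.a (R.T^[n] x) = 0 ↔ R.a x = 0 := by
  induction n with
  | zero => rfl
  | succ n ih => rw [Function.iterate_succ_apply', R.a_T_eq_zero, ih]

theorem b_iter_eq_zero (R : RP S F A₁ A₂) (n : ℕ) (x : X r) :
    R.b (R.T^[n] x) = 0 ↔ R.b x = 0 := by
  induction n with
  | zero => rfl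
  | succ n ih => rw [Function.iterate_succ_apply', R.b_T_eq_zero, ih]

theorem iter_symm (R : RP S F A₁ A₂) (n : ℕ) (x : X r) : R.T^[n] (R.T.symm^[n] x) = x := by
  induction n with
  | zero => rfl
  | succ n ih =>
    rw [Function.iterate_succ_apply, Function.iterate_succ_apply' R.T.symm,
      R.T.apply_symm_apply, ih]

theorem symm_iter (R : RP S F A₁ A₂) (n : ℕ) (x : X r) : R.T.symm^[n] (R.T^[n] x) = x := by
  induction n with
  | zero => rfl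
  | succ n ih =>
    rw [Function.iterate_succ_apply, Function.iterate_succ_apply' R.T,
      R.T.symm_apply_apply, ih]

theorem norm_a_iter (R : RP S F A₁ A₂) (n : ℕ) (x : X r) :
    R.L ^ n * R.na x ≤ R.na (R.T^[n] x) := by
  induction n with
  | zero => simp
  | succ n ih =>
    rw [Function.iterate_succ_apply']
    refine le_trans ?_ (R.grow_a _)
    rw [pow_succ']
    have h0 : 0 < R.L := lt_trans one_pos R.one_lt
    nlinarith

theorem norm_b_iter (R : RP S F A₁ A₂) (n : ℕ) (x : X r) :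
    R.L ^ n * R.nb (R.T^[n] x) ≤ R.nb x := by
  induction n with
  | zero => simp
  | succ n ih =>
    rw [Function.iterate_succ_apply']
    refine le_trans ?_ ih
    have h0 : 0 < R.L := lt_trans one_pos R.one_lt
    have h1 := R.grow_b (R.T^[n] x)
    have h2 : 0 < R.L ^ n := pow_pos h0 n
    rw [pow_succ]
    nlinarith

end RP

variable {E₁ E₂ : Type} [NormedAddCommGroup E₁] [NormedSpace ℝ E₁]
  [NormedAddCommGroup E₂] [NormedSpace ℝ E₂]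

variable (E₁ E₂) in
/-- The chart of a regular point: linear coordinates in which `E^u` and `E^s` at `q` are the two
factors and `T` is strongly hyperbolic at `q`. -/
structure Chart (H : Hyp S F) (R : RP S F A₁ A₂) where
  C : E r ≃L[ℝ] E₁ × E₂
  hC : ∀ v, C (H.P R.q v) = ((C v).1, 0)
  step_u : ∀ v, 8 * ‖(C v).1‖ ≤ ‖(C (tmap R.T R.q v)).1‖
  step_s : ∀ v, 8 * ‖(C (tmap R.T R.q v)).2‖ ≤ ‖(C v).2‖

/-- The coordinates centered at `q`. -/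
noncomputable def Chart.c {H : Hyp S F} {R : RP S F A₁ A₂} (Ch : Chart E₁ E₂ H R) (x : X r) :
    E₁ × E₂ :=
  Ch.C (toE x - toE R.q)

/-- The conditions on the radius `ρ` of the box at `q`; `κ` is a constant. -/
structure Box {H : Hyp S F} {R : RP S F A₁ A₂} (Ch : Chart E₁ E₂ H R) (ρ κ : ℝ) : Prop where
  pos : 0 < ρ
  compact : IsCompact {x | ‖Ch.c x‖ ≤ ρ}
  surj : ∀ v, ‖v‖ ≤ ρ → ∃ x, Ch.c x = v
  a_ne : ∀ x, ‖Ch.c x‖ ≤ ρ → ‖(Ch.c x).1‖ = ρ → R.a x ≠ 0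
  b_ne : ∀ x, ‖Ch.c x‖ ≤ ρ → ‖(Ch.c x).2‖ = ρ → R.b x ≠ 0
  a_inv : ∀ x, ‖Ch.c x‖ ≤ ρ → R.a x = 0 → ‖Ch.c (R.T x)‖ < ρ
  b_inv : ∀ x, ‖Ch.c x‖ ≤ ρ → R.b x = 0 → ‖Ch.c (R.T.symm x)‖ < ρ
  inj_u : ∀ x, ‖Ch.c x‖ ≤ ρ → ∀ v, H.P x v = v → ‖v‖ ≤ κ * ‖(Ch.C v).1‖
  inj_s : ∀ x, ‖Ch.c x‖ ≤ ρ → ∀ v, H.P x v = 0 → ‖v‖ ≤ κ * ‖(Ch.C v).2‖

/-- The bounds for a pair of regular points. -/
structure Cross (R' R'' : RP S F A₁ A₂) : Prop where
  b : ∀ K, IsCompact K → ∃ C : ℝ, ∀ y ∈ K, ∀ n : ℕ, R'.nb (R''.T^[n] y) ≤ C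
  a : ∀ K, IsCompact K → ∃ C : ℝ, ∀ y ∈ K, ∀ n : ℕ, R''.na (R'.T.symm^[n] y) ≤ C

/-- The map `G_n`. -/
noncomputable def G {H : Hyp S F} {R' R'' : RP S F A₁ A₂} (C' : Chart E₁ E₂ H R')
    (C'' : Chart E₁ E₂ H R'') (n : ℕ) (x : X r) : E₁ × E₂ :=
  ((C'.c (R'.T^[n] x)).1, (C''.c (R''.T.symm^[n] x)).2)

/-- The domain of `G_n`. -/
def Om {H : Hyp S F} {R' R'' : RP S F A₁ A₂} (C' : Chart E₁ E₂ H R')
    (C'' : Chart E₁ E₂ H R'') (ρ' ρ'' : ℝ) (n : ℕ) : Set (X r) :=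
  {x | ‖C'.c (R'.T^[n] x)‖ ≤ ρ' ∧ ‖C''.c (R''.T.symm^[n] x)‖ ≤ ρ''}

/-- the function `a'` on the unstable slice at `q'` -/
noncomputable def psiU {H : Hyp S F} {R : RP S F A₁ A₂} (Ch : Chart E₁ E₂ H R) (v : E₁) : A₁ :=
  R.a (ofE (toE R.q + Ch.C.symm (v, 0)))

/-- the function `b''` on the stable slice at `q''` -/
noncomputable def psiS {H : Hyp S F} {R : RP S F A₁ A₂} (Ch : Chart E₁ E₂ H R) (w : E₂) : A₂ :=
  R.b (ofE (toE R.q + Ch.C.symm (0, w)))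

variable [FiniteDimensional ℝ E₁] [FiniteDimensional ℝ E₂]

/-- the local degree -/
noncomputable def dloc (Θ : (A₁ × A₂) ≃L[ℝ] E₁ × E₂) {H : Hyp S F} {R' R'' : RP S F A₁ A₂}
    (C' : Chart E₁ E₂ H R') (C'' : Chart E₁ E₂ H R'') (ρ' ρ'' : ℝ) : ℤ :=
  Deg.deg (fun z : E₁ × E₂ => Θ (psiU C' z.1, psiS C'' z.2))
    (Metric.closedBall (0 : E₁) ρ' ×ˢ Metric.closedBall (0 : E₂) ρ'')

end Pool.Agent.ANO5.A3.Conn
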