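import Pool.Agent.ANO3.Deg.Basic
import Pool.Agent.ANO5.A1.Idx.Crd

/-!
# ANO5, module Conn: degrees on `X r`

`degX C₀ Φ K = Deg.deg (hat C₀ Φ) (hatS C₀ K)` where `hat C₀ Φ = Φ ∘ ofE ∘ C₀.symm` and
`hatS C₀ K = C₀ '' (toE '' K)`.  The map `j = C₀ ∘ toE : X r → E₁ × E₂` is an open embedding
(`Idx.isOpenEmbedding_toE`), its range is `C₀ '' dom r` (`Idx.range_toE`), and
`hat C₀ Φ (j x) = Φ x` (`Idx.ofE_toE`); `hat C₀ Φ` is continuous on the open set `C₀ '' dom r` if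
`Φ` is continuous (`Idx.continuousOn_ofE`).

`hatS_compact`: image of a compact set.  `interior_hatS`, `frontier_hatS`: `j` is an open embedding
and `K` is compact, so `hatS C₀ K` is closed: `frontier = hatS \ interior` (`IsClosed.frontier_eq`),
and `interior (j '' K) = j '' interior K` (open embedding: `IsOpenMap`, `interior` of the image; if
`j x ∈ interior (j '' K)` then `x ∈ j ⁻¹' interior (j '' K) ⊆ interior (j ⁻¹' (j '' K)) =
interior K`).

`degX_homotopy`: `Deg.deg_homotopy` with `V = C₀ '' dom r`, `F t = hat C₀ (Φ t)`.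
`degX_excision`: `Deg.deg_excision`.  `degX_zero`: `Deg.deg_zero`.
`degX_one`: `Φ` has exactly one zero `w` in `K`, it is in the interior of `K`, and `hat C₀ Φ` is
`C¹` near `j w` with invertible derivative. Take a small closed ball `N'` around `j w`, inside the
interior of `hatS C₀ K` and inside the open set where `hat C₀ Φ` is `C¹`:
`Deg.deg_excision` to `N'`, then `Deg.deg_of_reg`, and `cnt` is the sum over the one point `j w` of
the `jacobianSign`, which is `1` or `-1`.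
-/

set_option autoImplicit false

open Set Filter Topology

namespace Pool.Agent.ANO5.A3.Conn

open Pool.Agent.ANO5.A1 Pool.Agent.ANO3

variable [Fib] {r : ℕ} {E₁ E₂ : Type} [NormedAddCommGroup E₁] [NormedSpace ℝ E₁]
  [NormedAddCommGroup E₂] [NormedSpace ℝ E₂]

/-- A function on `X r` in the linear coordinates `C₀`. -/
noncomputable def hat (C₀ : E r ≃L[ℝ] E₁ × E₂) (Φ : X r → E₁ × E₂) (z : E₁ × E₂) : E₁ × E₂ :=
  Φ (ofE (C₀.symm z))

/-- A subset of `X r` in the linear coordinates `C₀`. -/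
def hatS (C₀ : E r ≃L[ℝ] E₁ × E₂) (K : Set (X r)) : Set (E₁ × E₂) :=
  (fun x => C₀ (toE x)) '' K

variable [FiniteDimensional ℝ E₁] [FiniteDimensional ℝ E₂]

/-- The degree of a function on a compact set. -/
noncomputable def degX (C₀ : E r ≃L[ℝ] E₁ × E₂) (Φ : X r → E₁ × E₂) (K : Set (X r)) : ℤ :=
  Deg.deg (hat C₀ Φ) (hatS C₀ K)

variable [Nontrivial (E₁ × E₂)]

private theorem emb_DegX (C₀ : E r ≃L[ℝ] E₁ × E₂) :
    IsOpenEmbedding (fun x : X r => C₀ (toE x)) :=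
  C₀.toHomeomorph.isOpenEmbedding.comp Idx.isOpenEmbedding_toE

theorem hatS_compact (C₀ : E r ≃L[ℝ] E₁ × E₂) {K : Set (X r)} (hK : IsCompact K) :
    IsCompact (hatS C₀ K) := by
  exact hK.image (emb_DegX C₀).continuous

theorem hat_apply (C₀ : E r ≃L[ℝ] E₁ × E₂) (Φ : X r → E₁ × E₂) (x : X r) :
    hat C₀ Φ (C₀ (toE x)) = Φ x := by
  unfold hat
  rw [ContinuousLinearEquiv.symm_apply_apply, Idx.ofE_toE]

theorem interior_hatS (C₀ : E r ≃L[ℝ] E₁ × E₂) {K : Set (X r)} :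
    interior (hatS C₀ K) = hatS C₀ (interior K) := by
  have hj := emb_DegX C₀
  refine Subset.antisymm ?_ (hj.isOpenMap.image_interior_subset K)
  intro y hy
  obtain ⟨x, hx, rfl⟩ := interior_subset hy
  have h1 := preimage_interior_subset_interior_preimage hj.continuous (show x ∈ _ from hy)
  rw [hatS, preimage_image_eq _ hj.injective] at h1
  exact ⟨x, h1, rfl⟩

theorem frontier_hatS (C₀ : E r ≃L[ℝ] E₁ × E₂) {K : Set (X r)} (hK : IsCompact K) :
    frontier (hatS C₀ K) = hatS C₀ (frontier K) := by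
  rw [(hatS_compact C₀ hK).isClosed.frontier_eq, interior_hatS, hK.isClosed.frontier_eq, hatS,
    hatS, hatS, image_sdiff (emb_DegX C₀).injective]

theorem isOpen_range (C₀ : E r ≃L[ℝ] E₁ × E₂) : IsOpen (C₀ '' dom r) := by
  exact C₀.toHomeomorph.isOpenMap _ Idx.isOpen_dom

theorem continuousOn_hat (C₀ : E r ≃L[ℝ] E₁ × E₂) {Φ : X r → E₁ × E₂} (h : Continuous Φ) :
    ContinuousOn (hat C₀ Φ) (C₀ '' dom r) := by
  refine h.comp_continuousOn (Idx.continuousOn_ofE.comp C₀.symm.continuous.continuousOn ?_)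
  rintro z ⟨x, hx, rfl⟩
  rw [ContinuousLinearEquiv.symm_apply_apply]
  exact hx

private theorem sub_DegX (C₀ : E r ≃L[ℝ] E₁ × E₂) (K : Set (X r)) :
    hatS C₀ K ⊆ C₀ '' dom r := by
  rintro z ⟨x, -, rfl⟩
  exact ⟨toE x, Idx.toE_mem x, rfl⟩

theorem adm (C₀ : E r ≃L[ℝ] E₁ × E₂) {Φ : X r → E₁ × E₂} (h : Continuous Φ) {K : Set (X r)}
    (hK : IsCompact K) (h0 : ∀ x ∈ frontier K, Φ x ≠ 0) : Deg.Adm (hat C₀ Φ) (hatS C₀ K) := by
  refine ⟨hatS_compact C₀ hK, ⟨C₀ '' dom r, isOpen_range C₀, ?_, continuousOn_hat C₀ h⟩, ?_⟩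
  · exact sub_DegX C₀ K
  · rw [frontier_hatS C₀ hK]
    rintro z ⟨x, hx, rfl⟩
    rw [hat_apply]
    exact h0 x hx

theorem degX_homotopy (C₀ : E r ≃L[ℝ] E₁ × E₂) {Φ : ℝ → X r → E₁ × E₂}
    (h : ContinuousOn (fun p : ℝ × X r => Φ p.1 p.2) (Icc 0 1 ×ˢ univ)) {K : Set (X r)}
    (hK : IsCompact K) (h0 : ∀ t ∈ Icc (0 : ℝ) 1, ∀ x ∈ frontier K, Φ t x ≠ 0) :
    degX C₀ (Φ 0) K = degX C₀ (Φ 1) K := by
  refine Deg.deg_homotopy (F := fun t => hat C₀ (Φ t)) (hatS_compact C₀ hK) (isOpen_range C₀)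
    (sub_DegX C₀ K) ?_ ?_
  · have h1 : ContinuousOn (fun p : ℝ × (E₁ × E₂) => (p.1, (ofE (C₀.symm p.2) : X r)))
        (Icc 0 1 ×ˢ (C₀ '' dom r)) := by
      refine continuousOn_fst.prodMk (Idx.continuousOn_ofE.comp
        (C₀.symm.continuous.comp continuous_snd).continuousOn ?_)
      rintro ⟨t, z⟩ ⟨-, ⟨x, hx, rfl⟩⟩
      show C₀.symm (C₀ x) ∈ dom r
      rw [ContinuousLinearEquiv.symm_apply_apply]
      exact hx
    exact h.comp h1 fun p hp => ⟨hp.1, mem_univ _⟩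
  · rw [frontier_hatS C₀ hK]
    rintro t ht z ⟨x, hx, rfl⟩
    rw [hat_apply]
    exact h0 t ht x hx

theorem degX_excision (C₀ : E r ≃L[ℝ] E₁ × E₂) {Φ : X r → E₁ × E₂} (h : Continuous Φ)
    {K K' : Set (X r)} (hK : IsCompact K) (hK' : IsCompact K')
    (h0 : ∀ x, Φ x = 0 → x ∈ K → x ∈ interior K ∧ x ∈ interior K')
    (h1 : ∀ x, Φ x = 0 → x ∈ K' → x ∈ interior K ∧ x ∈ interior K') :
    degX C₀ Φ K = degX C₀ Φ K' := by
  have hKK : IsCompact (K ∩ K') := hK.inter_right hK'.isClosed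
  have key : ∀ L : Set (X r), IsCompact L → K ∩ K' ⊆ L →
      (∀ x, Φ x = 0 → x ∈ L → x ∈ interior L ∧ x ∈ interior (K ∩ K')) →
      degX C₀ Φ L = degX C₀ Φ (K ∩ K') := by
    intro L hL hsub hz
    refine Deg.deg_excision (adm C₀ h hL fun x hx hx0 => ?_) (hatS_compact C₀ hKK)
      (image_mono hsub) ?_
    · exact hx.2 (hz x hx0 (hL.isClosed.frontier_subset hx)).1
    · rintro z ⟨x, hx, rfl⟩ hz' hx0
      rw [hat_apply] at hx0
      refine hz' ?_
      rw [interior_hatS]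
      exact ⟨x, (hz x hx0 hx).2, rfl⟩
  rw [key K hK inter_subset_left fun x hx hxK => ?_, key K' hK' inter_subset_right
    fun x hx hxK => ?_]
  · rw [interior_inter]
    exact ⟨(h1 x hx hxK).2, h1 x hx hxK⟩
  · rw [interior_inter]
    exact ⟨(h0 x hx hxK).1, h0 x hx hxK⟩

theorem degX_zero (C₀ : E r ≃L[ℝ] E₁ × E₂) {Φ : X r → E₁ × E₂} (h : Continuous Φ)
    {K : Set (X r)} (hK : IsCompact K) (h0 : ∀ x ∈ K, Φ x ≠ 0) : degX C₀ Φ K = 0 := by
  refine Deg.deg_zero (adm C₀ h hK fun x hx => h0 x (hK.isClosed.frontier_subset hx)) ?_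
  rintro z ⟨x, hx, rfl⟩
  rw [hat_apply]
  exact h0 x hx

theorem degX_one (C₀ : E r ≃L[ℝ] E₁ × E₂) {Φ : X r → E₁ × E₂} (h : Continuous Φ)
    {K : Set (X r)} (hK : IsCompact K) {w : X r} (hw : w ∈ interior K) (hw0 : Φ w = 0)
    (h0 : ∀ x ∈ K, Φ x = 0 → x = w) {V : Set (E₁ × E₂)} (hV : V ∈ 𝓝 (C₀ (toE w)))
    (hs : ContDiffOn ℝ 1 (hat C₀ Φ) V) (hd : (fderiv ℝ (hat C₀ Φ) (C₀ (toE w))).det ≠ 0) :
    (degX C₀ Φ K).natAbs = 1 := by
  have hA : Deg.Adm (hat C₀ Φ) (hatS C₀ K) := adm C₀ h hK fun x hx hx0 => by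
    have := h0 x (hK.isClosed.frontier_subset hx) hx0
    subst this
    exact hx.2 hw
  have hz : ∀ z ∈ hatS C₀ K, hat C₀ Φ z = 0 → z = C₀ (toE w) := by
    rintro z ⟨x, hx, rfl⟩ hz
    rw [hat_apply] at hz
    rw [h0 x hx hz]
  have hwi : C₀ (toE w) ∈ interior (hatS C₀ K) := by
    rw [interior_hatS]
    exact ⟨w, hw, rfl⟩
  have hnh : interior V ∩ interior (hatS C₀ K) ∈ 𝓝 (C₀ (toE w)) :=
    inter_mem (interior_mem_nhds.2 hV) (isOpen_interior.mem_nhds hwi)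
  obtain ⟨ε, hε, hball⟩ := Metric.nhds_basis_closedBall.mem_iff.1 hnh
  have hN : IsCompact (Metric.closedBall (C₀ (toE w)) ε) := isCompact_closedBall _ _
  have hsub : Metric.closedBall (C₀ (toE w)) ε ⊆ hatS C₀ K := fun z hz' =>
    interior_subset (hball hz').2
  have hin : C₀ (toE w) ∈ interior (Metric.closedBall (C₀ (toE w)) ε) :=
    Metric.ball_subset_interior_closedBall (Metric.mem_ball_self hε)
  have e1 : degX C₀ Φ K = Deg.deg (hat C₀ Φ) (Metric.closedBall (C₀ (toE w)) ε) :=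
    Deg.deg_excision hA hN hsub fun z hz1 hz2 hz3 => hz2 (by rw [hz z hz1 hz3]; exact hin)
  have hreg : Pool.Agent.ANO.Idx.Reg (hat C₀ Φ) (Metric.closedBall (C₀ (toE w)) ε) := fun z hz1 hz2 => by
    rw [hz z (hsub hz1) hz2]
    exact hd
  have hs' : ContDiffOn ℝ 1 (hat C₀ Φ) (interior V) := hs.mono interior_subset
  have hNV : Metric.closedBall (C₀ (toE w)) ε ⊆ interior V := fun z hz' => (hball hz').1
  have e2 := Deg.deg_of_reg hN isOpen_interior hNV hs' hreg fun z hz1 hz2 => by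
    rw [hz z (hsub (hN.isClosed.frontier_subset hz1)) hz2] at hz1
    exact hz1.2 hin
  have hw0' : hat C₀ Φ (C₀ (toE w)) = 0 := by rw [hat_apply, hw0]
  have hset : Metric.closedBall (C₀ (toE w)) ε ∩ hat C₀ Φ ⁻¹' {0} = {C₀ (toE w)} := by
    ext z
    constructor
    · rintro ⟨hz1, hz2⟩
      exact hz z (hsub hz1) hz2
    · rintro rfl
      exact ⟨Metric.mem_closedBall_self hε.le, hw0'⟩
  have e3 := Pool.Agent.ANO.Idx.ncard_eq_of_sign hN isOpen_interior hNV hs' hreg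
    (σ := Pool.Agent.SmoothDegree.jacobianSign (hat C₀ Φ) (C₀ (toE w))) (by
      unfold Pool.Agent.SmoothDegree.jacobianSign
      rcases lt_or_gt_of_ne hd with h' | h'
      · rw [sign_neg h']; rfl
      · rw [sign_pos h']; rfl) fun z hz1 hz2 => by rw [hz z (hsub hz1) hz2]
  rw [e1, e2, ← e3, hset, ncard_singleton]

end Pool.Agent.ANO5.A3.Conn
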