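import Pool.Agent.ANO3.Deg.Cover
import Pool.Agent.ANO3.Deg.Lin
import Pool.Agent.ANO3.Deg.Prod
import Pool.Agent.ANO3.Deg.Exist

/-!
# ANO5, module Conn: degrees of products (package CONN-SPLIT)

`ψ', ψ'' : E₁ → A₁`, `φ', φ'' : E₂ → A₂`, where `A₁`, `A₂` are nontrivial and
`Θ : A₁ × A₂ ≃ E₁ × E₂`.
`dg ψ φ ρ = deg (z ↦ Θ (ψ z.1, φ z.2)) (B₁ ρ × B₂ ρ')`.

`dim_le`: if `dg ≠ 0` then `dim A₁ ≤ dim E₁`. Suppose `dim E₁ < dim A₁`. Let `N = B₁ × B₂` and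
`f z = Θ (ψ z.1, φ z.2)`; it is continuous near `N` and has no zero on the frontier of `N`, which is
compact: `‖f‖ ≥ δ > 0` there. By `Deg.exists_good` (or `ANO.Idx.exists_approx`) for the function
`z ↦ Θ (ψ z.1, 0)` (is it admissible? use `ANO.Idx.exists_approx`, which only needs
continuity) there is a `C¹` map `h : E₁ × E₂ → E₁ × E₂` close to it on `N`; put
`g v = (Θ.symm (h (v, 0))).1`, a `C¹` map `E₁ → A₁` which is close to `ψ` on `B₁`. By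
`ContDiff.dense_compl_range_of_finrank_lt_finrank` there is a small `v₀ ∉ range g`. Then
`z ↦ Θ (g z.1 - v₀, φ z.2)` has no zero on `N`, so its degree is zero (`Deg.deg_zero`), and it is
`δ`-close to `f` on the frontier: `Deg.deg_homotopy` (straight line). The same for `φ`:
`dim A₂ ≤ dim E₂` (`dim_le'`). As `dim E₁ + dim E₂ = dim A₁ + dim A₂`, the dimensions are equal.

`split`: take linear isomorphisms `θ₁ : A₁ ≃ E₁`, `θ₂ : A₂ ≃ E₂`. `Θ = Λ ∘ (θ₁ × θ₂)` with a linear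
isomorphism `Λ` of `E₁ × E₂`; by `Deg.deg_comp_left` and `Deg.natAbs_sign_det` the degrees change
only by a sign if `Θ` is replaced by `θ₁ × θ₂`, and then `Deg.deg_prod` shows that they are products
`deg (θ₁ ∘ ψ) B₁ * deg (θ₂ ∘ φ) B₂`. 
-/

set_option autoImplicit false

open Set Filter Topology Metric
open Pool.Agent.SmoothDegree

namespace Pool.Agent.ANO5.A3.Conn

open Pool.Agent.ANO3

variable {A₁ A₂ E₁ E₂ : Type} [NormedAddCommGroup E₁] [NormedSpace ℝ E₁]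
  [NormedAddCommGroup E₂] [NormedSpace ℝ E₂] [FiniteDimensional ℝ E₁] [FiniteDimensional ℝ E₂]
  [NormedAddCommGroup A₁] [NormedSpace ℝ A₁] [FiniteDimensional ℝ A₁] [Nontrivial A₁]
  [NormedAddCommGroup A₂] [NormedSpace ℝ A₂] [FiniteDimensional ℝ A₂] [Nontrivial A₂]

/-- a positive lower bound of the norm on a sphere -/
private theorem lower_Split {E F : Type*} [NormedAddCommGroup E] [NormedSpace ℝ E]
    [FiniteDimensional ℝ E] [NormedAddCommGroup F] {ψ : E → F} {ρ : ℝ} {U : Set E}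
    (hUρ : closedBall 0 ρ ⊆ U) (hψ : ContinuousOn ψ U) (hψ0 : ∀ v, ‖v‖ = ρ → ψ v ≠ 0) :
    ∃ m > 0, ∀ v, ‖v‖ = ρ → m ≤ ‖ψ v‖ := by
  have hK : IsCompact (sphere (0 : E) ρ) := isCompact_sphere 0 ρ
  rcases (sphere (0 : E) ρ).eq_empty_or_nonempty with h | h
  · refine ⟨1, one_pos, fun v hv => ?_⟩
    have : v ∈ sphere (0 : E) ρ := by simpa using hv
    rw [h] at this
    exact absurd this (notMem_empty v)
  · have hc : ContinuousOn (fun v => ‖ψ v‖) (sphere (0 : E) ρ) :=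
      (hψ.mono (sphere_subset_closedBall.trans hUρ)).norm
    obtain ⟨v₀, hv₀, hmin⟩ := hK.exists_isMinOn h hc
    refine ⟨‖ψ v₀‖, norm_pos_iff.2 (hψ0 v₀ (by simpa using hv₀)), fun v hv => ?_⟩
    exact hmin (by simpa using hv)

/-- a map to a space of larger dimension is close to a map without zeros -/
private theorem near_Split {E F : Type*} [NormedAddCommGroup E] [NormedSpace ℝ E]
    [FiniteDimensional ℝ E] [NormedAddCommGroup F] [NormedSpace ℝ F] [FiniteDimensional ℝ F]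
    (hEF : Module.finrank ℝ E < Module.finrank ℝ F) {ψ : E → F} {ρ : ℝ} (hρ : 0 < ρ) {U : Set E}
    (hUρ : closedBall 0 ρ ⊆ U) (hψ : ContinuousOn ψ U) {m : ℝ} (hm : 0 < m) :
    ∃ g : E → F, Continuous g ∧ (∀ v, g v ≠ 0) ∧ ∀ v, ‖v‖ ≤ ρ → ‖g v - ψ v‖ < m := by
  have hmax : ∀ v : E, 0 < max ρ ‖v‖ := fun v => lt_of_lt_of_le hρ (le_max_left _ _)
  have hr : Continuous fun v : E => (ρ / max ρ ‖v‖) • v :=
    (continuous_const.div (continuous_const.max continuous_norm) fun v => (hmax v).ne').smul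
      continuous_id
  have hball : ∀ v : E, (ρ / max ρ ‖v‖) • v ∈ closedBall (0 : E) ρ := by
    intro v
    rw [mem_closedBall_zero_iff, norm_smul, Real.norm_eq_abs,
      abs_of_nonneg (div_nonneg hρ.le (hmax v).le), div_mul_eq_mul_div, div_le_iff₀ (hmax v)]
    exact mul_le_mul_of_nonneg_left (le_max_right _ _) hρ.le
  have hc : Continuous fun v : E => ψ ((ρ / max ρ ‖v‖) • v) :=
    (hψ.mono hUρ).comp_continuous hr hball
  obtain ⟨g, hg, hga, -⟩ := hc.exists_contDiff_approx 1 (ε := fun _ => m / 2)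
    continuous_const fun _ => half_pos hm
  have hd : Dense (range g)ᶜ := by
    refine ContDiff.dense_compl_range_of_finrank_lt_finrank ?_ hEF
    exact_mod_cast hg
  obtain ⟨y, hy, hyd⟩ := hd.exists_mem_open (isOpen_ball : IsOpen (ball (0 : F) (m / 2)))
    ⟨0, mem_ball_self (half_pos hm)⟩
  refine ⟨fun v => g v - y, hg.continuous.sub continuous_const, fun v h => hy ?_, ?_⟩
  · exact ⟨v, sub_eq_zero.1 h⟩
  · intro v hv
    have e1 : (ρ / max ρ ‖v‖) • v = v := by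
      rw [max_eq_left hv, div_self hρ.ne', one_smul]
    have e2 : ‖g v - ψ v‖ < m / 2 := by
      have := hga v
      rw [dist_eq_norm] at this
      simpa only [e1] using this
    have e3 : ‖y‖ < m / 2 := mem_ball_zero_iff.1 hyd
    have e4 : g v - y - ψ v = (g v - ψ v) - y := by abel
    rw [e4]
    calc ‖(g v - ψ v) - y‖ ≤ ‖g v - ψ v‖ + ‖y‖ := norm_sub_le _ _
      _ < m := by linarith

omit [FiniteDimensional ℝ A₁] [Nontrivial A₁] [FiniteDimensional ℝ A₂] [Nontrivial A₂] in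
/-- the degree of a map homotopic to a map without zeros -/
private theorem zero_Split {E : Type*} [NormedAddCommGroup E] [NormedSpace ℝ E]
    [FiniteDimensional ℝ E] [Nontrivial E] (Θ : (A₁ × A₂) ≃L[ℝ] E) {N W : Set E}
    (hN : IsCompact N) (hW : IsOpen W) (hNW : N ⊆ W) {a a' : E → A₁} {b b' : E → A₂}
    (ha : ContinuousOn a W)
    (ha' : ContinuousOn a' W) (hb : ContinuousOn b W) (hb' : ContinuousOn b' W)
    (h0 : ∀ z ∈ frontier N, ∀ t ∈ Icc (0 : ℝ) 1,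
      a z + t • (a' z - a z) ≠ 0 ∨ b z + t • (b' z - b z) ≠ 0)
    (h1 : ∀ z ∈ N, a' z ≠ 0 ∨ b' z ≠ 0) : Deg.deg (fun z => Θ (a z, b z)) N = 0 := by
  have hz : ∀ p : A₁ × A₂, Θ p = 0 → p.1 = 0 ∧ p.2 = 0 := by
    intro p hp
    have := Θ.map_eq_zero_iff.1 hp
    rw [this]
    exact ⟨rfl, rfl⟩
  let F : ℝ → E → E := fun t z => Θ (a z + t • (a' z - a z), b z + t • (b' z - b z))
  have hl : ∀ {A : Type} [NormedAddCommGroup A] [NormedSpace ℝ A] {c c' : E → A},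
      ContinuousOn c W → ContinuousOn c' W →
      ContinuousOn (fun p : ℝ × E => c p.2 + p.1 • (c' p.2 - c p.2)) (Icc 0 1 ×ˢ W) := by
    intro A _ _ c c' hc hc'
    have i1 : ContinuousOn (fun p : ℝ × E => c p.2) (Icc (0 : ℝ) 1 ×ˢ W) :=
      hc.comp continuousOn_snd fun p hp => hp.2
    have i2 : ContinuousOn (fun p : ℝ × E => c' p.2) (Icc (0 : ℝ) 1 ×ˢ W) :=
      hc'.comp continuousOn_snd fun p hp => hp.2
    exact i1.add (continuousOn_fst.smul (i2.sub i1))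
  have hF : ContinuousOn (fun p : ℝ × E => F p.1 p.2) (Icc 0 1 ×ˢ W) :=
    Θ.continuous.comp_continuousOn ((hl ha ha').prodMk (hl hb hb'))
  have hF0 : ∀ t ∈ Icc (0 : ℝ) 1, ∀ z ∈ frontier N, F t z ≠ 0 := by
    intro t ht z hz' h
    obtain ⟨e1, e2⟩ := hz _ h
    rcases h0 z hz' t ht with h2 | h2
    · exact h2 e1
    · exact h2 e2
  have e0 : F 0 = fun z => Θ (a z, b z) := by
    funext z
    simp only [F, zero_smul, add_zero]
  have e1 : F 1 = fun z => Θ (a' z, b' z) := by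
    funext z
    simp only [F, one_smul, add_sub_cancel]
  rw [← e0, Deg.deg_homotopy hN hW hNW hF hF0, e1]
  have hA : Deg.Adm (fun z => Θ (a' z, b' z)) N := by
    refine ⟨hN, ⟨W, hW, hNW, Θ.continuous.comp_continuousOn (ha'.prodMk hb')⟩, ?_⟩
    intro z hz' h
    obtain ⟨e1, e2⟩ := hz _ h
    rcases h1 z (hN.isClosed.frontier_subset hz') with h2 | h2
    · exact h2 e1
    · exact h2 e2
  refine Deg.deg_zero hA fun z hz' h => ?_
  obtain ⟨e1, e2⟩ := hz _ h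
  rcases h1 z hz' with h2 | h2
  · exact h2 e1
  · exact h2 e2

/-- the straight line towards a close map does not vanish -/
private theorem line_Split {F : Type*} [NormedAddCommGroup F] [NormedSpace ℝ F] {u v : F}
    {t m : ℝ} (ht : t ∈ Icc (0 : ℝ) 1) (hu : m ≤ ‖u‖) (hv : ‖v - u‖ < m) :
    u + t • (v - u) ≠ 0 := by
  intro h
  have e1 : u = -(t • (v - u)) := eq_neg_of_add_eq_zero_left h
  have e2 : ‖u‖ = t * ‖v - u‖ := by
    conv_lhs => rw [e1]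
    rw [norm_neg, norm_smul, Real.norm_eq_abs, abs_of_nonneg ht.1]
  have e3 : t * ‖v - u‖ ≤ 1 * ‖v - u‖ := mul_le_mul_of_nonneg_right ht.2 (norm_nonneg _)
  linarith

theorem dim_le (Θ : (A₁ × A₂) ≃L[ℝ] E₁ × E₂) {ψ : E₁ → A₁} {φ : E₂ → A₂} {ρ ρ' : ℝ} (hρ : 0 < ρ)
    (hρ' : 0 < ρ') {U : Set E₁} {V : Set E₂} (hU : IsOpen U) (hV : IsOpen V)
    (hUρ : closedBall 0 ρ ⊆ U) (hVρ : closedBall 0 ρ' ⊆ V) (hψ : ContinuousOn ψ U)
    (hφ : ContinuousOn φ V) (hψ0 : ∀ v, ‖v‖ = ρ → ψ v ≠ 0) (hφ0 : ∀ w, ‖w‖ = ρ' → φ w ≠ 0)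
    (hd : Deg.deg (fun z : E₁ × E₂ => Θ (ψ z.1, φ z.2)) (closedBall 0 ρ ×ˢ closedBall 0 ρ') ≠ 0) :
    Module.finrank ℝ E₁ = Module.finrank ℝ A₁ ∧ Module.finrank ℝ E₂ = Module.finrank ℝ A₂ := by
  have : Nontrivial (E₁ × E₂) := Θ.symm.toEquiv.nontrivial
  have hN : IsCompact (closedBall (0 : E₁) ρ ×ˢ closedBall (0 : E₂) ρ') :=
    (isCompact_closedBall 0 ρ).prod (isCompact_closedBall 0 ρ')
  have hNW : closedBall (0 : E₁) ρ ×ˢ closedBall (0 : E₂) ρ' ⊆ U ×ˢ V := prod_mono hUρ hVρ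
  have hfr : ∀ z ∈ frontier (closedBall (0 : E₁) ρ ×ˢ closedBall (0 : E₂) ρ'),
      ‖z.1‖ = ρ ∨ ‖z.2‖ = ρ' := by
    intro z hz
    rw [frontier_prod_eq, frontier_closedBall _ hρ.ne', frontier_closedBall _ hρ'.ne'] at hz
    rcases hz with h | h
    · exact Or.inr (by simpa using h.2)
    · exact Or.inl (by simpa using h.1)
  have hfrN : ∀ z ∈ frontier (closedBall (0 : E₁) ρ ×ˢ closedBall (0 : E₂) ρ'),
      ‖z.1‖ ≤ ρ ∧ ‖z.2‖ ≤ ρ' := by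
    intro z hz
    have := hN.isClosed.frontier_subset hz
    exact ⟨by simpa using this.1, by simpa using this.2⟩
  have c1 : ContinuousOn (fun z : E₁ × E₂ => ψ z.1) (U ×ˢ V) :=
    hψ.comp continuousOn_fst fun z hz => hz.1
  have c2 : ContinuousOn (fun z : E₁ × E₂ => φ z.2) (U ×ˢ V) :=
    hφ.comp continuousOn_snd fun z hz => hz.2
  have hsum : Module.finrank ℝ E₁ + Module.finrank ℝ E₂ =
      Module.finrank ℝ A₁ + Module.finrank ℝ A₂ := by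
    rw [← Module.finrank_prod, ← Module.finrank_prod]
    exact Θ.symm.toLinearEquiv.finrank_eq
  obtain ⟨m, hm, hml⟩ := lower_Split hUρ hψ hψ0
  obtain ⟨m', hm', hml'⟩ := lower_Split hVρ hφ hφ0
  have g1 : ¬ Module.finrank ℝ E₁ < Module.finrank ℝ A₁ := by
    intro hlt
    obtain ⟨g, hgc, hg0, hgψ⟩ := near_Split hlt hρ hUρ hψ hm
    refine hd (zero_Split Θ hN (hU.prod hV) hNW (a' := fun z => g z.1) (b' := fun z => φ z.2) c1
      (hgc.comp continuous_fst).continuousOn c2 c2 ?_ ?_)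
    · intro z hz t ht
      rcases hfr z hz with h | h
      · exact Or.inl (line_Split ht (hml z.1 h) (hgψ z.1 h.le))
      · right
        rw [sub_self, smul_zero, add_zero]
        exact hφ0 z.2 h
    · exact fun z _ => Or.inl (hg0 z.1)
  have g2 : ¬ Module.finrank ℝ E₂ < Module.finrank ℝ A₂ := by
    intro hlt
    obtain ⟨g, hgc, hg0, hgψ⟩ := near_Split hlt hρ' hVρ hφ hm'
    refine hd (zero_Split Θ hN (hU.prod hV) hNW (a' := fun z => ψ z.1) (b' := fun z => g z.2) c1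
      c1 c2 (hgc.comp continuous_snd).continuousOn ?_ ?_)
    · intro z hz t ht
      rcases hfr z hz with h | h
      · left
        rw [sub_self, smul_zero, add_zero]
        exact hψ0 z.1 h
      · exact Or.inr (line_Split ht (hml' z.2 h) (hgψ z.2 h.le))
    · exact fun z _ => Or.inr (hg0 z.2)
  omega

omit [FiniteDimensional ℝ A₁] [Nontrivial A₁] [FiniteDimensional ℝ A₂] [Nontrivial A₂] in
/-- the degree of a product map is nonzero iff the degrees of the factors are nonzero -/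
private theorem iff_Split [Nontrivial E₁] [Nontrivial E₂] (Θ : (A₁ × A₂) ≃L[ℝ] E₁ × E₂)
    (θ₁ : A₁ ≃L[ℝ] E₁) (θ₂ : A₂ ≃L[ℝ] E₂) {ψ : E₁ → A₁} {φ : E₂ → A₂} {ρ ρ' : ℝ} (hρ : 0 < ρ)
    (hρ' : 0 < ρ') {U : Set E₁} {V : Set E₂} (hU : IsOpen U) (hV : IsOpen V)
    (hUρ : closedBall 0 ρ ⊆ U) (hVρ : closedBall 0 ρ' ⊆ V) (hψ : ContinuousOn ψ U)
    (hφ : ContinuousOn φ V) (hψ0 : ∀ v, ‖v‖ = ρ → ψ v ≠ 0) (hφ0 : ∀ w, ‖w‖ = ρ' → φ w ≠ 0) :
    Deg.deg (fun z : E₁ × E₂ => Θ (ψ z.1, φ z.2)) (closedBall 0 ρ ×ˢ closedBall 0 ρ') ≠ 0 ↔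
      Deg.deg (θ₁ ∘ ψ) (closedBall 0 ρ) ≠ 0 ∧ Deg.deg (θ₂ ∘ φ) (closedBall 0 ρ') ≠ 0 := by
  have A1 : Deg.Adm (θ₁ ∘ ψ) (closedBall 0 ρ) := by
    refine ⟨isCompact_closedBall 0 ρ, ⟨U, hU, hUρ, θ₁.continuous.comp_continuousOn hψ⟩, ?_⟩
    intro v hv h
    rw [frontier_closedBall _ hρ.ne'] at hv
    exact hψ0 v (by simpa using hv) (θ₁.map_eq_zero_iff.1 h)
  have A2 : Deg.Adm (θ₂ ∘ φ) (closedBall 0 ρ') := by
    refine ⟨isCompact_closedBall 0 ρ', ⟨V, hV, hVρ, θ₂.continuous.comp_continuousOn hφ⟩, ?_⟩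
    intro v hv h
    rw [frontier_closedBall _ hρ'.ne'] at hv
    exact hφ0 v (by simpa using hv) (θ₂.map_eq_zero_iff.1 h)
  let L : (E₁ × E₂) ≃L[ℝ] E₁ × E₂ := (θ₁.prodCongr θ₂).symm.trans Θ
  have e1 : (fun z : E₁ × E₂ => Θ (ψ z.1, φ z.2)) = L ∘ Prod.map (θ₁ ∘ ψ) (θ₂ ∘ φ) := by
    funext z
    change Θ (ψ z.1, φ z.2) = Θ (θ₁.symm (θ₁ (ψ z.1)), θ₂.symm (θ₂ (φ z.2)))
    rw [θ₁.symm_apply_apply, θ₂.symm_apply_apply]
  have h1 := (Deg.deg_comp_left L (Deg.adm_prod A1 A2)).2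
  have h2 := Deg.natAbs_sign_det L
  have h3 : (SignType.sign (L : (E₁ × E₂) →L[ℝ] E₁ × E₂).det : ℤ) ≠ 0 := by
    intro h
    rw [h] at h2
    simp at h2
  rw [e1, h1, Deg.deg_prod A1 A2]
  constructor
  · intro h
    exact ⟨fun h4 => h (by rw [h4, zero_mul, mul_zero]), fun h4 => h (by rw [h4, mul_zero,
      mul_zero])⟩
  · rintro ⟨h4, h5⟩
    exact mul_ne_zero h3 (mul_ne_zero h4 h5)

theorem split (Θ : (A₁ × A₂) ≃L[ℝ] E₁ × E₂) {ψ' ψ'' : E₁ → A₁} {φ' φ'' : E₂ → A₂} {ρ' ρ'' : ℝ}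
    (hρ' : 0 < ρ') (hρ'' : 0 < ρ'') {U' U'' : Set E₁} {V' V'' : Set E₂} (hU' : IsOpen U')
    (hU'' : IsOpen U'') (hV' : IsOpen V') (hV'' : IsOpen V'')
    (hU1 : closedBall 0 ρ' ⊆ U') (hU2 : closedBall 0 ρ'' ⊆ U'')
    (hV1 : closedBall 0 ρ' ⊆ V') (hV2 : closedBall 0 ρ'' ⊆ V'')
    (hψ' : ContinuousOn ψ' U') (hψ'' : ContinuousOn ψ'' U'') (hφ' : ContinuousOn φ' V')
    (hφ'' : ContinuousOn φ'' V'') (h1 : ∀ v, ‖v‖ = ρ' → ψ' v ≠ 0)
    (h2 : ∀ v, ‖v‖ = ρ'' → ψ'' v ≠ 0) (h3 : ∀ w, ‖w‖ = ρ' → φ' w ≠ 0)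
    (h4 : ∀ w, ‖w‖ = ρ'' → φ'' w ≠ 0)
    (hd' : Deg.deg (fun z : E₁ × E₂ => Θ (ψ' z.1, φ' z.2))
      (closedBall 0 ρ' ×ˢ closedBall 0 ρ') ≠ 0)
    (hd'' : Deg.deg (fun z : E₁ × E₂ => Θ (ψ'' z.1, φ'' z.2))
      (closedBall 0 ρ'' ×ˢ closedBall 0 ρ'') ≠ 0) :
    Deg.deg (fun z : E₁ × E₂ => Θ (ψ' z.1, φ'' z.2))
      (closedBall 0 ρ' ×ˢ closedBall 0 ρ'') ≠ 0 := by
  obtain ⟨d1, d2⟩ := dim_le Θ hρ' hρ' hU' hV' hU1 hV1 hψ' hφ' h1 h3 hd'
  have : Nontrivial E₁ := Module.nontrivial_of_finrank_pos (R := ℝ) (by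
    rw [d1]
    exact Module.finrank_pos)
  have : Nontrivial E₂ := Module.nontrivial_of_finrank_pos (R := ℝ) (by
    rw [d2]
    exact Module.finrank_pos)
  let θ₁ : A₁ ≃L[ℝ] E₁ := ContinuousLinearEquiv.ofFinrankEq d1.symm
  let θ₂ : A₂ ≃L[ℝ] E₂ := ContinuousLinearEquiv.ofFinrankEq d2.symm
  have k1 := (iff_Split Θ θ₁ θ₂ hρ' hρ' hU' hV' hU1 hV1 hψ' hφ' h1 h3).1 hd'
  have k2 := (iff_Split Θ θ₁ θ₂ hρ'' hρ'' hU'' hV'' hU2 hV2 hψ'' hφ'' h2 h4).1 hd''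
  exact (iff_Split Θ θ₁ θ₂ hρ' hρ'' hU' hV'' hU1 hV2 hψ' hφ'' h1 h4).2 ⟨k1.1, k2.2⟩

end Pool.Agent.ANO5.A3.Conn
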