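import Pool.Agent.ANO5.A3.Conn.Count
import Pool.Agent.ANO5.A3.Conn.Cone
import Pool.Agent.ANO5.A3.Conn.ChartX
import Pool.Agent.ANO5.A3.Conn.Split
import Pool.Agent.ANO5.A3.Conn.Total

/-!
# ANO5, module Conn: no connections (final statement of the abstract part)
-/

set_option autoImplicit false

open Set Filter Topology
open Pool.Agent.SmoothDegree

namespace Pool.Agent.ANO5.A3.Conn

variable [Fib]

open Pool.Agent.ANO3 Pool.Agent.ANO5.A1 Pool.Agent.ANO5.A2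

variable {r : ℕ} {S : Fin r → ClosedSurface} {F : X r ≃ₜ X r}
variable {A₁ A₂ : Type} [NormedAddCommGroup A₁] [NormedSpace ℝ A₁]
  [NormedAddCommGroup A₂] [NormedSpace ℝ A₂]
variable {E₁ E₂ : Type} [NormedAddCommGroup E₁] [NormedSpace ℝ E₁]
  [NormedAddCommGroup E₂] [NormedSpace ℝ E₂] [FiniteDimensional ℝ E₁] [FiniteDimensional ℝ E₂]
  [Nontrivial (E₁ × E₂)]

theorem cross_self (R : RP S F A₁ A₂) : Cross R R := by
  constructor
  · intro K hK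
    obtain ⟨C, hC⟩ := hK.exists_bound_of_continuousOn R.cont_nb.continuousOn
    refine ⟨|C|, fun y hy n => ?_⟩
    have h1 := R.norm_b_iter n y
    have h2 : (1 : ℝ) ≤ R.L ^ n := one_le_pow₀ R.one_lt.le
    have h3 := (le_abs_self _).trans (hC y hy)
    have h4 := le_abs_self C
    have h5 := R.nb_nonneg (R.T^[n] y)
    nlinarith
  · intro K hK
    obtain ⟨C, hC⟩ := hK.exists_bound_of_continuousOn R.cont_na.continuousOn
    refine ⟨|C|, fun y hy n => ?_⟩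
    have h1 := R.norm_a_iter n (R.T.symm^[n] y)
    rw [R.iter_symm] at h1
    have h2 : (1 : ℝ) ≤ R.L ^ n := one_le_pow₀ R.one_lt.le
    have h3 := (le_abs_self _).trans (hC y hy)
    have h4 := le_abs_self C
    have h5 := R.na_nonneg (R.T.symm^[n] y)
    nlinarith

private theorem slice_in {H : Hyp S F} {R : RP S F A₁ A₂} (Ch : Chart E₁ E₂ H R) {ρ κ : ℝ}
    (B : Box Ch ρ κ) (v : E₁ × E₂) (hv : ‖v‖ ≤ ρ) :
    ∃ x : X r, Ch.c x = v ∧ toE R.q + Ch.C.symm v = toE x := by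
  obtain ⟨x, hx⟩ := B.surj v hv
  refine ⟨x, hx, ?_⟩
  rw [← hx, Chart.c, ContinuousLinearEquiv.symm_apply_apply, add_sub_cancel]

private theorem psiU_prop {H : Hyp S F} {R : RP S F A₁ A₂} (Ch : Chart E₁ E₂ H R) {ρ κ : ℝ}
    (B : Box Ch ρ κ) : ∃ U : Set E₁, IsOpen U ∧ Metric.closedBall 0 ρ ⊆ U ∧
      ContinuousOn (psiU Ch) U ∧ ∀ v, ‖v‖ = ρ → psiU Ch v ≠ 0 := by
  have hc : Continuous fun v : E₁ => toE R.q + Ch.C.symm (v, 0) :=
    continuous_const.add (Ch.C.symm.continuous.comp (continuous_id.prodMk continuous_const))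
  refine ⟨(fun v : E₁ => toE R.q + Ch.C.symm (v, 0)) ⁻¹' dom r,
    Idx.isOpen_dom.preimage hc, ?_, ?_, ?_⟩
  · intro v hv
    obtain ⟨x, -, h2⟩ := slice_in Ch B (v, 0) (by
      rw [Prod.norm_mk, norm_zero]
      exact max_le (mem_closedBall_zero_iff.1 hv) B.pos.le)
    change toE R.q + Ch.C.symm (v, 0) ∈ dom r
    rw [h2, ← Idx.range_toE]
    exact mem_range_self x
  · exact R.cont_a.comp_continuousOn
      (Idx.continuousOn_ofE.comp hc.continuousOn fun v hv => hv)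
  · intro v hv
    have h0 : ‖((v, 0) : E₁ × E₂)‖ ≤ ρ := by
      rw [Prod.norm_mk, norm_zero]
      exact max_le hv.le B.pos.le
    obtain ⟨x, h1, h2⟩ := slice_in Ch B (v, 0) h0
    rw [psiU, h2, Idx.ofE_toE]
    refine B.a_ne x (by rw [h1]; exact h0) (by rw [h1]; exact hv)

private theorem psiS_prop {H : Hyp S F} {R : RP S F A₁ A₂} (Ch : Chart E₁ E₂ H R) {ρ κ : ℝ}
    (B : Box Ch ρ κ) : ∃ V : Set E₂, IsOpen V ∧ Metric.closedBall 0 ρ ⊆ V ∧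
      ContinuousOn (psiS Ch) V ∧ ∀ w, ‖w‖ = ρ → psiS Ch w ≠ 0 := by
  have hc : Continuous fun w : E₂ => toE R.q + Ch.C.symm (0, w) :=
    continuous_const.add (Ch.C.symm.continuous.comp (continuous_const.prodMk continuous_id))
  refine ⟨(fun w : E₂ => toE R.q + Ch.C.symm (0, w)) ⁻¹' dom r,
    Idx.isOpen_dom.preimage hc, ?_, ?_, ?_⟩
  · intro w hw
    obtain ⟨x, -, h2⟩ := slice_in Ch B (0, w) (by
      rw [Prod.norm_mk, norm_zero]
      exact max_le B.pos.le (mem_closedBall_zero_iff.1 hw))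
    change toE R.q + Ch.C.symm (0, w) ∈ dom r
    rw [h2, ← Idx.range_toE]
    exact mem_range_self x
  · exact R.cont_b.comp_continuousOn
      (Idx.continuousOn_ofE.comp hc.continuousOn fun w hw => hw)
  · intro w hw
    have h0 : ‖((0, w) : E₁ × E₂)‖ ≤ ρ := by
      rw [Prod.norm_mk, norm_zero]
      exact max_le B.pos.le hw.le
    obtain ⟨x, h1, h2⟩ := slice_in Ch B (0, w) h0
    rw [psiS, h2, Idx.ofE_toE]
    refine B.b_ne x (by rw [h1]; exact h0) (by rw [h1]; exact hw)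

private theorem cross_pow {R' R'' R₁ R₂ : RP S F A₁ A₂} (hc : Cross R' R'') (a₂ : R₂.na = R''.na)
    (b₁ : R₁.nb = R'.nb) {j₁ j₂ : ℕ} (T₁ : ∀ x, R₁.T x = R'.T^[j₁] x)
    (T₂ : ∀ x, R₂.T x = R''.T^[j₂] x) : Cross R₁ R₂ := by
  have e2 : (R₂.T : X r → X r) = R''.T^[j₂] := funext T₂
  have e1 : (R₁.T.symm : X r → X r) = R'.T.symm^[j₁] := by
    funext y
    apply R₁.T.injective
    rw [R₁.T.apply_symm_apply, T₁, R'.iter_symm]
  constructor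
  · intro K hK
    obtain ⟨C, hC⟩ := hc.b K hK
    refine ⟨C, fun y hy n => ?_⟩
    rw [b₁, e2, ← Function.iterate_mul]
    exact hC y hy _
  · intro K hK
    obtain ⟨C, hC⟩ := hc.a K hK
    refine ⟨C, fun y hy n => ?_⟩
    rw [a₂, e1, ← Function.iterate_mul]
    exact hC y hy _

private theorem zero_iff (Θ : (A₁ × A₂) ≃L[ℝ] E₁ × E₂) (u : A₁) (v : A₂) :
    Θ (u, v) = 0 ↔ u = 0 ∧ v = 0 := by
  rw [← map_zero Θ, Θ.injective.eq_iff, Prod.ext_iff]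
  rfl

private theorem dloc_self (H : Hyp S F) {R : RP S F A₁ A₂} (Ch : Chart E₁ E₂ H R) {ρ κ : ℝ}
    (B : Box Ch ρ κ) (C₀ : E r ≃L[ℝ] E₁ × E₂) (Θ : (A₁ × A₂) ≃L[ℝ] E₁ × E₂)
    (h1 : Total C₀ (fun x => Θ (R.a x, R.b x)) 1) : dloc Θ Ch Ch ρ ρ ≠ 0 := by
  intro h0
  have hcont : Continuous fun x => Θ (R.a x, R.b x) :=
    Θ.continuous.comp (R.cont_a.prodMk R.cont_b)
  have hZ := h1.compact hcont
  obtain ⟨K, hK, h2, h3⟩ := h1
  have e1 : {x | Θ (R.a x, R.b x) = 0} = {x | R.a x = 0 ∧ R.b x = 0} := by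
    ext x
    exact zero_iff Θ _ _
  rw [e1] at hZ h2
  obtain ⟨m, σ, -, h4, -⟩ := count Ch Ch B B (cross_self R) hZ C₀ Θ hK h2
  rw [h4, h0, mul_zero] at h3
  exact absurd h3 (by norm_num)

/-- If the degrees of the pairs `(w', w')` and `(w'', w'')` are not zero and the degree of the pair
`(w', w'')` is zero then there is no connection from `w''` to `w'`. -/
theorem no_conn [FiniteDimensional ℝ A₁] [Nontrivial A₁] [FiniteDimensional ℝ A₂]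
    [Nontrivial A₂] (H : Hyp S F) (R' R'' : RP S F A₁ A₂)
    (hu : ∀ p, Module.finrank ℝ (LinearMap.range (H.P p : E r →ₗ[ℝ] E r)) =
      Module.finrank ℝ E₁)
    (hs : ∀ p, Module.finrank ℝ (LinearMap.ker (H.P p : E r →ₗ[ℝ] E r)) =
      Module.finrank ℝ E₂)
    (hc : Cross R' R'') (C₀ : E r ≃L[ℝ] E₁ × E₂) (Θ : (A₁ × A₂) ≃L[ℝ] E₁ × E₂)
    (h1 : Total C₀ (fun x => Θ (R'.a x, R'.b x)) 1)
    (h2 : Total C₀ (fun x => Θ (R''.a x, R''.b x)) 1)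
    (h3 : Total C₀ (fun x => Θ (R'.a x, R''.b x)) 0) (x : X r) :
    ¬ (R'.a x = 0 ∧ R''.b x = 0) := by
  intro hx
  obtain ⟨R₁, -, a₁, b₁, -, nb₁, ⟨j₁, -, T₁⟩, ⟨C'⟩⟩ := exists_chart (E₁ := E₁) (E₂ := E₂) H R'
    (hu _) (hs _)
  obtain ⟨R₂, -, a₂, b₂, na₂, -, ⟨j₂, -, T₂⟩, ⟨C''⟩⟩ := exists_chart (E₁ := E₁) (E₂ := E₂) H R''
    (hu _) (hs _)
  have hc' : Cross R₁ R₂ := cross_pow hc na₂ nb₁ T₁ T₂
  obtain ⟨κ', -, ρ', hρ', hB'⟩ := exists_box C'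
  obtain ⟨κ'', -, ρ'', hρ'', hB''⟩ := exists_box C''
  have B' := hB' ρ' hρ' le_rfl
  have B'' := hB'' ρ'' hρ'' le_rfl
  rw [← a₁, ← b₁] at h1
  rw [← a₂, ← b₂] at h2
  rw [← a₁, ← b₂] at h3 hx
  have d1 := dloc_self H C' B' C₀ Θ h1
  have d2 := dloc_self H C'' B'' C₀ Θ h2
  obtain ⟨U', oU', sU', cU', nU'⟩ := psiU_prop C' B'
  obtain ⟨U'', oU'', sU'', cU'', nU''⟩ := psiU_prop C'' B''
  obtain ⟨V', oV', sV', cV', nV'⟩ := psiS_prop C' B'
  obtain ⟨V'', oV'', sV'', cV'', nV''⟩ := psiS_prop C'' B''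
  have d3 : dloc Θ C' C'' ρ' ρ'' ≠ 0 := split Θ hρ' hρ'' oU' oU'' oV' oV'' sU' sU'' sV' sV''
    cU' cU'' cV' cV'' nU' nU'' nV' nV'' d1 d2
  have hcont : Continuous fun x => Θ (R₁.a x, R₂.b x) :=
    Θ.continuous.comp (R₁.cont_a.prodMk R₂.cont_b)
  have hZ := h3.compact hcont
  obtain ⟨K, hK, h4, h5⟩ := h3
  have e1 : {x | Θ (R₁.a x, R₂.b x) = 0} = {x | R₁.a x = 0 ∧ R₂.b x = 0} := by
    ext x
    exact zero_iff Θ _ _
  rw [e1] at hZ h4
  obtain ⟨m, σ, hσ, h6, h7⟩ := count C' C'' B' B'' hc' hZ C₀ Θ hK h4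
  have hm := h7 ⟨x, hx⟩
  rw [Int.natAbs_eq_zero, h6] at h5
  have hσ0 : σ ≠ 0 := by
    intro h
    rw [h] at hσ
    exact absurd hσ (by norm_num)
  rcases mul_eq_zero.1 h5 with h | h
  · rcases mul_eq_zero.1 h with h | h
    · exact hσ0 h
    · exact hm.ne' (by exact_mod_cast h)
  · exact d3 h

end Pool.Agent.ANO5.A3.Conn
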