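import Pool.Agent.ANO5.A3.Conn.Defs
import Pool.Agent.ANO5.A2.Dyn.DeckC

/-!
# ANO5, module Conn: the derivative of `G_n` is invertible (package CONN-INJ)

`iter_fwd`, `iter_bwd`: `T^[n] = g_n ∘ F ^ (M * n)` with a deck transformation `g_n`
(`A2.Idx.exists_deck_pow`; `T = g ∘ F ^ M` as functions by `R.T_eq`), so (`tmap_comp`,
`A2.Idx.deck_tnorm`) `tnorm (T^[n] x) (tmap T^[n] x v) = tnorm (F^(M n) x) (tmap F^(M n) x v)`,
which is `≤ C μ^(M n) tnorm x v` if `P x v = 0` (`H.est`), and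
`tnorm x v ≤ C μ^(M n) tnorm (T^[n] x) (tmap T^[n] x v)` if `P x v = v`
(`A2.Idx.unstable_pow`); `μ^(M n) ≤ μ^n`. The inverse `T.symm^[n]`: let `y = T.symm^[n] x`, so
`x = T^[n] y`, `tmap T.symm^[n] x` is the inverse of `B = tmap T^[n] y`, and `P x ∘ B = B ∘ P y`
(`A2.Idx.pow_inv` and `H.deck`), so `w = tmap T.symm^[n] x v` satisfies `P y w = 0` if
`P x v = 0`, and `P y w = w` if `P x v = v`; apply the two estimates to `y`, `w`.
Commutation: `P (T^[n] x) ∘ tmap T^[n] x = tmap T^[n] x ∘ P x` and the same for `T.symm^[n]`.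

`inj_G`: let `c₁`, `c₂` be the constants of `A2.Dyn.tnorm_le`, `A2.Dyn.le_tnorm` for the
compact set of the `y` with `‖c' y‖ ≤ ρ'` or `‖c'' y‖ ≤ ρ''` (`Box.compact`). Put `y' = T'^[n] x`,
`y'' = T''.symm^[n] x`, `v_u = P x v`, `v_s = v - P x v`, `A' = tmap T'^[n] x`,
`A'' = tmap T''.symm^[n] x`. The first equation is `(C' (A' v_u)).1 = -(1-t) (C' (A' v_s)).1`; as
`P y' (A' v_u) = A' v_u`, `Box.inj_u` gives
`‖A' v_u‖ ≤ κ' ‖(C' (A' v_u)).1‖ ≤ κ' ‖C'‖ ‖A' v_s‖`. With `iter_fwd` and the comparison of the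
norms at `y'`: `tnorm x v_u ≤ C μ^n tnorm y' (A' v_u) ≤ K μ^n tnorm y' (A' v_s) ≤
K C μ^(2n) tnorm x v_s`, `K` independent of `n`, `x`, `t`, `v`. The second equation gives
`tnorm x v_s ≤ K₂ μ^(2n) tnorm x v_u` in the same way. For large `n` both are zero, and `v = 0`
(`tnorm x v = 0` implies `v = 0`: `A2.Idx.tnorm_equiv`).
-/

set_option autoImplicit false

open Set Filter Topology

namespace Pool.Agent.ANO5.A3.Conn

variable [Fib]

open Pool.Agent.ANO3 Pool.Agent.ANO5.A1 Pool.Agent.ANO5.A2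

variable {r : ℕ} {S : Fin r → ClosedSurface} {F : X r ≃ₜ X r}
variable {A₁ A₂ : Type} [NormedAddCommGroup A₁] [NormedSpace ℝ A₁]
  [NormedAddCommGroup A₂] [NormedSpace ℝ A₂]
variable {E₁ E₂ : Type} [NormedAddCommGroup E₁] [NormedSpace ℝ E₁]
  [NormedAddCommGroup E₂] [NormedSpace ℝ E₂]

private theorem T_fun_Inj (R : RP S F A₁ A₂) :
    (R.T : X r → X r) = R.g ∘ (F ^ R.M : X r ≃ₜ X r) :=
  funext fun p => R.T_eq p

private theorem smooth_T_Inj (H : Hyp S F) (R : RP S F A₁ A₂) :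
    ContDiffOn ℝ 1 (loc R.T) (dom r) := by
  rw [T_fun_Inj]
  exact A2.Idx.contDiffOn_T H.lift R.M R.deck

private theorem smooth_symm_Inj (H : Hyp S F) (R : RP S F A₁ A₂) :
    ContDiffOn ℝ 1 (loc R.T.symm) (dom r) := by
  obtain ⟨h, hh, -, h2⟩ := A2.Idx.deck_inv R.deck
  have h3 : (R.T.symm : X r → X r) = (F ^ R.M : X r ≃ₜ X r).symm ∘ h := by
    funext p
    rw [R.T.symm_apply_eq, R.T_eq, Function.comp_apply, Homeomorph.apply_symm_apply, h2]
  rw [h3]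
  exact A1.Idx.contDiffOn_comp (A1.Idx.contDiffOn_pow_symm H.lift.2.1 R.M)
    (A2.Idx.deck_contDiffOn hh)

private theorem smooth_iter_Inj {G : X r → X r} (hG : ContDiffOn ℝ 1 (loc G) (dom r))
    (n : ℕ) : ContDiffOn ℝ 1 (loc (G^[n])) (dom r) := by
  induction n with
  | zero => exact A1.Idx.contDiffOn_id
  | succ n ih =>
    rw [Function.iterate_succ]
    exact A1.Idx.contDiffOn_comp ih hG

theorem iter_smooth (H : Hyp S F) (R : RP S F A₁ A₂) (n : ℕ) :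
    ContDiffOn ℝ 1 (loc R.T^[n]) (dom r) ∧ ContDiffOn ℝ 1 (loc R.T.symm^[n]) (dom r) :=
  ⟨smooth_iter_Inj (smooth_T_Inj H R) n, smooth_iter_Inj (smooth_symm_Inj H R) n⟩

private theorem det_ne_Inj {A B : E r →L[ℝ] E r}
    (h : A ∘L B = ContinuousLinearMap.id ℝ _) : B.det ≠ 0 := by
  intro h0
  have h1 : (A ∘L B).det = 1 := by
    rw [h]
    exact LinearMap.det_id
  have h2 : (A ∘L B).det = A.det * B.det := LinearMap.det_comp _ _
  rw [h2, h0, mul_zero] at h1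
  exact zero_ne_one h1

private theorem left_Inj (H : Hyp S F) (R : RP S F A₁ A₂) (n : ℕ) (x : X r) :
    tmap R.T.symm^[n] (R.T^[n] x) ∘L tmap R.T^[n] x = ContinuousLinearMap.id ℝ _ := by
  have h1 : R.T.symm^[n] ∘ R.T^[n] = id := funext fun y => R.symm_iter n y
  rw [← A1.Idx.tmap_comp (iter_smooth H R n).2 (iter_smooth H R n).1, h1, A1.Idx.tmap_id]

private theorem right_Inj (H : Hyp S F) (R : RP S F A₁ A₂) (n : ℕ) (x : X r) :
    tmap R.T^[n] (R.T.symm^[n] x) ∘L tmap R.T.symm^[n] x = ContinuousLinearMap.id ℝ _ := by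
  have h1 : R.T^[n] ∘ R.T.symm^[n] = id := funext fun y => R.iter_symm n y
  rw [← A1.Idx.tmap_comp (iter_smooth H R n).1 (iter_smooth H R n).2, h1, A1.Idx.tmap_id]

theorem iter_det (H : Hyp S F) (R : RP S F A₁ A₂) (n : ℕ) (x : X r) :
    (tmap R.T^[n] x).det ≠ 0 ∧ (tmap R.T.symm^[n] x).det ≠ 0 :=
  ⟨det_ne_Inj (left_Inj H R n x), det_ne_Inj (right_Inj H R n x)⟩

private theorem comm_T_Inj (H : Hyp S F) (R : RP S F A₁ A₂) (x : X r) :
    H.P (R.T x) ∘L tmap R.T x = tmap R.T x ∘L H.P x := by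
  have h1 : tmap R.T x = tmap R.g ((F ^ R.M : X r ≃ₜ X r) x) ∘L
      tmap (F ^ R.M : X r ≃ₜ X r) x := by
    rw [T_fun_Inj]
    exact A1.Idx.tmap_comp (A2.Idx.deck_contDiffOn R.deck)
      (A1.Idx.contDiffOn_pow H.lift.1 R.M) x
  rw [h1, R.T_eq, ← ContinuousLinearMap.comp_assoc, H.deck R.g R.deck,
    ContinuousLinearMap.comp_assoc, A2.Idx.pow_inv H.lift.1 H.comm R.M x,
    ContinuousLinearMap.comp_assoc]

private theorem comm_iter_Inj (H : Hyp S F) (R : RP S F A₁ A₂) (n : ℕ) (x : X r) :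
    H.P (R.T^[n] x) ∘L tmap R.T^[n] x = tmap R.T^[n] x ∘L H.P x := by
  induction n with
  | zero =>
    have h0 : R.T^[0] = id := rfl
    rw [h0, A1.Idx.tmap_id]
    rfl
  | succ n ih =>
    have h1 : R.T^[n + 1] = R.T ∘ R.T^[n] := Function.iterate_succ' _ _
    rw [h1, A1.Idx.tmap_comp (smooth_T_Inj H R) (iter_smooth H R n).1, Function.comp_apply,
      ← ContinuousLinearMap.comp_assoc, comm_T_Inj, ContinuousLinearMap.comp_assoc, ih,
      ContinuousLinearMap.comp_assoc]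

theorem iter_comm (H : Hyp S F) (R : RP S F A₁ A₂) (n : ℕ) (x : X r) :
    H.P (R.T^[n] x) ∘L tmap R.T^[n] x = tmap R.T^[n] x ∘L H.P x ∧
      H.P (R.T.symm^[n] x) ∘L tmap R.T.symm^[n] x = tmap R.T.symm^[n] x ∘L H.P x := by
  refine ⟨comm_iter_Inj H R n x, ?_⟩
  set y : X r := R.T.symm^[n] x with hy
  have hx : R.T^[n] y = x := R.iter_symm n x
  have h1 := comm_iter_Inj H R n y
  have h2 := left_Inj H R n y
  have h3 := right_Inj H R n x
  rw [← hy] at h3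
  rw [hx] at h1 h2
  set A : E r →L[ℝ] E r := tmap R.T.symm^[n] x with hA
  set B : E r →L[ℝ] E r := tmap R.T^[n] y with hB
  calc H.P y ∘L A = (A ∘L B) ∘L (H.P y ∘L A) := by rw [h2, ContinuousLinearMap.id_comp]
    _ = A ∘L ((B ∘L H.P y) ∘L A) := by
        rw [ContinuousLinearMap.comp_assoc, ContinuousLinearMap.comp_assoc]
    _ = A ∘L ((H.P x ∘L B) ∘L A) := by rw [h1]
    _ = A ∘L (H.P x ∘L (B ∘L A)) := by rw [ContinuousLinearMap.comp_assoc]
    _ = A ∘L H.P x := by rw [h3, ContinuousLinearMap.comp_id]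

theorem iter_fwd (H : Hyp S F) (R : RP S F A₁ A₂) (n : ℕ) (x : X r) (v : E r) :
    (H.P x v = 0 → tnorm (R.T^[n] x) (tmap R.T^[n] x v) ≤ H.C * H.μ ^ n * tnorm x v) ∧
      (H.P x v = v → tnorm x v ≤ H.C * H.μ ^ n * tnorm (R.T^[n] x) (tmap R.T^[n] x v)) := by
  have hC := H.C_pos
  have hμ := H.μ_pos
  have hn : ∀ (p : X r) (w : E r), 0 ≤ tnorm p w := fun p w => le_max_of_le_left (norm_nonneg _)
  obtain ⟨g', hg', h3⟩ := A2.Idx.exists_deck_pow H.lift.2.2.1 R.M R.deck n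
  have h4 : R.T^[n] = g' ∘ (F ^ (R.M * n) : X r ≃ₜ X r) := by
    rw [T_fun_Inj]
    exact h3
  have h5 : tnorm (R.T^[n] x) (tmap R.T^[n] x v) =
      tnorm ((F ^ (R.M * n) : X r ≃ₜ X r) x)
        (tmap (F ^ (R.M * n) : X r ≃ₜ X r) x v) := by
    rw [h4, A1.Idx.tmap_comp (A2.Idx.deck_contDiffOn hg')
      (A1.Idx.contDiffOn_pow H.lift.1 (R.M * n)) x]
    exact A2.Idx.deck_tnorm hg' _ _
  have hμn : H.μ ^ (R.M * n) ≤ H.μ ^ n :=
    pow_le_pow_of_le_one hμ.le H.μ_lt.le (Nat.le_mul_of_pos_left n R.M_pos)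
  have hle : H.C * H.μ ^ (R.M * n) ≤ H.C * H.μ ^ n := mul_le_mul_of_nonneg_left hμn hC.le
  rw [h5]
  refine ⟨fun h0 => ?_, fun h0 => ?_⟩
  · exact ((H.est (R.M * n) x v).1 h0).trans (mul_le_mul_of_nonneg_right hle (hn _ _))
  · have h8 := A2.Idx.unstable_pow H.lift.1 H.lift.2.1 H.comm
      (c := H.C * H.μ ^ (R.M * n)) (n := R.M * n) (p := x)
      (fun v' hv' => (H.est (R.M * n) ((F ^ (R.M * n) : X r ≃ₜ X r) x) v').2 hv') h0
    exact h8.trans (mul_le_mul_of_nonneg_right hle (hn _ _))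

theorem iter_bwd (H : Hyp S F) (R : RP S F A₁ A₂) (n : ℕ) (x : X r) (v : E r) :
    (H.P x v = v → tnorm (R.T.symm^[n] x) (tmap R.T.symm^[n] x v) ≤ H.C * H.μ ^ n * tnorm x v) ∧
      (H.P x v = 0 →
        tnorm x v ≤ H.C * H.μ ^ n * tnorm (R.T.symm^[n] x) (tmap R.T.symm^[n] x v)) := by
  set y : X r := R.T.symm^[n] x with hy
  set w : E r := tmap R.T.symm^[n] x v with hw
  have hx : R.T^[n] y = x := R.iter_symm n x
  have h1 : tmap R.T^[n] y w = v := by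
    have h := congrArg (fun L : E r →L[ℝ] E r => L v) (right_Inj H R n x)
    simpa only [ContinuousLinearMap.comp_apply, ContinuousLinearMap.id_apply] using h
  have h2 : H.P y w = tmap R.T.symm^[n] x (H.P x v) := by
    have h := congrArg (fun L : E r →L[ℝ] E r => L v) (iter_comm H R n x).2
    simpa only [ContinuousLinearMap.comp_apply] using h
  have h3 := iter_fwd H R n y w
  rw [hx, h1] at h3
  refine ⟨fun h0 => h3.2 ?_, fun h0 => h3.1 ?_⟩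
  · rw [h2, h0]
  · rw [h2, h0, map_zero]

private theorem chain_Inj {a b s u C m K : ℝ} (hC : 0 ≤ C) (hm : 0 ≤ m) (hK : 0 ≤ K)
    (h1 : a ≤ C * m * s) (h2 : s ≤ K * u) (h3 : u ≤ C * m * b) :
    a ≤ C * m * K * (C * m) * b := by
  have e0 : 0 ≤ C * m := mul_nonneg hC hm
  calc a ≤ C * m * s := h1
    _ ≤ C * m * (K * u) := mul_le_mul_of_nonneg_left h2 e0
    _ ≤ C * m * (K * (C * m * b)) :=
        mul_le_mul_of_nonneg_left (mul_le_mul_of_nonneg_left h3 hK) e0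
    _ = C * m * K * (C * m) * b := by ring

private theorem small_Inj {C μ K : ℝ} (hμ : 0 < μ) (hμ1 : μ < 1) :
    ∃ n₀ : ℕ, ∀ n, n₀ ≤ n → C * μ ^ n * K * (C * μ ^ n) < 1 := by
  have h1 : Tendsto (fun n : ℕ => μ ^ n) atTop (𝓝 0) :=
    tendsto_pow_atTop_nhds_zero_of_lt_one hμ.le hμ1
  have h2 : Tendsto (fun n : ℕ => C * μ ^ n * K * (C * μ ^ n)) atTop
      (𝓝 (C * 0 * K * (C * 0))) :=
    ((h1.const_mul C).mul_const K).mul (h1.const_mul C)
  have h3 : C * 0 * K * (C * 0) < 1 := by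
    rw [mul_zero, zero_mul, zero_mul]
    exact one_pos
  exact eventually_atTop.1 (h2.eventually_lt_const h3)

private theorem comp_Inj {L : E r →L[ℝ] E r} {t : ℝ} (ht : t ∈ Icc (0 : ℝ) 1)
    {W : Type} [NormedAddCommGroup W] [NormedSpace ℝ W] (D : E r →L[ℝ] W) {κ : ℝ}
    {u s : E r} (h0 : D (L (u + (1 - t) • s)) = 0) (h1 : ‖L u‖ ≤ κ * ‖D (L u)‖) :
    ‖L u‖ ≤ |κ| * ‖D‖ * ‖L s‖ := by
  have h2 : D (L u) = -((1 - t) • D (L s)) := by
    rw [map_add, map_add, map_smul, map_smul] at h0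
    exact eq_neg_of_add_eq_zero_left h0
  have h3 : ‖D (L u)‖ ≤ ‖D‖ * ‖L s‖ := by
    rw [h2, norm_neg, norm_smul]
    have e1 : ‖(1 - t : ℝ)‖ ≤ 1 := by
      rw [Real.norm_eq_abs, abs_le]
      constructor <;> linarith [ht.1, ht.2]
    have e2 := D.le_opNorm (L s)
    have e3 := norm_nonneg (D (L s))
    have e4 := norm_nonneg (1 - t : ℝ)
    nlinarith
  calc ‖L u‖ ≤ κ * ‖D (L u)‖ := h1
    _ ≤ |κ| * ‖D (L u)‖ := mul_le_mul_of_nonneg_right (le_abs_self κ) (norm_nonneg _)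
    _ ≤ |κ| * (‖D‖ * ‖L s‖) := mul_le_mul_of_nonneg_left h3 (abs_nonneg κ)
    _ = |κ| * ‖D‖ * ‖L s‖ := by ring

theorem inj_G {H : Hyp S F} {R' R'' : RP S F A₁ A₂} (C' : Chart E₁ E₂ H R')
    (C'' : Chart E₁ E₂ H R'')
    {ρ' ρ'' κ' κ'' : ℝ} (B' : Box C' ρ' κ') (B'' : Box C'' ρ'' κ'') :
    ∃ n₀ : ℕ, ∀ n, n₀ ≤ n → ∀ x ∈ Om C' C'' ρ' ρ'' n, ∀ t ∈ Icc (0 : ℝ) 1, ∀ v : E r,
      (C'.C (tmap R'.T^[n] x (H.P x v + (1 - t) • (v - H.P x v)))).1 = 0 →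
      (C''.C (tmap R''.T.symm^[n] x ((v - H.P x v) + (1 - t) • H.P x v))).2 = 0 → v = 0 := by
  obtain ⟨c1, hc1, hk1⟩ := A2.Dyn.tnorm_le B'.compact
  obtain ⟨c2, hc2, hk2⟩ := A2.Dyn.le_tnorm B'.compact
  obtain ⟨d1, hd1, hl1⟩ := A2.Dyn.tnorm_le B''.compact
  obtain ⟨d2, hd2, hl2⟩ := A2.Dyn.le_tnorm B''.compact
  set D' : E r →L[ℝ] E₁ :=
    (ContinuousLinearMap.fst ℝ E₁ E₂) ∘L (C'.C : E r →L[ℝ] E₁ × E₂) with hD'
  set D'' : E r →L[ℝ] E₂ :=
    (ContinuousLinearMap.snd ℝ E₁ E₂) ∘L (C''.C : E r →L[ℝ] E₁ × E₂) with hD''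
  set K' : ℝ := c1 * (|κ'| * ‖D'‖ * c2) with hK'
  set K'' : ℝ := d1 * (|κ''| * ‖D''‖ * d2) with hK''
  have hK'0 : 0 ≤ K' := by positivity
  have hK''0 : 0 ≤ K'' := by positivity
  obtain ⟨n1, hn1⟩ := small_Inj (C := H.C) (K := K') H.μ_pos H.μ_lt
  obtain ⟨n2, hn2⟩ := small_Inj (C := H.C) (K := K'') H.μ_pos H.μ_lt
  refine ⟨max n1 n2, fun n hn x hx t ht v h1 h2 => ?_⟩
  have hm0 : 0 ≤ H.μ ^ n := (pow_pos H.μ_pos n).le
  set y' : X r := R'.T^[n] x with hy'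
  set y'' : X r := R''.T.symm^[n] x with hy''
  set u : E r := H.P x v with hu
  set s : E r := v - H.P x v with hs
  have hPP : ∀ w : E r, H.P x (H.P x w) = H.P x w := fun w => by
    have h := congrArg (fun L : E r →L[ℝ] E r => L w) (H.proj x)
    simpa only [ContinuousLinearMap.comp_apply] using h
  have hPu : H.P x u = u := hPP v
  have hPs : H.P x s = 0 := by
    rw [hs, map_sub, hPP, sub_self]
  have hn0 : ∀ (p : X r) (w : E r), 0 ≤ tnorm p w := fun p w => le_max_of_le_left (norm_nonneg _)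
  -- first equation
  have a1 : ‖tmap R'.T^[n] x u‖ ≤ |κ'| * ‖D'‖ * ‖tmap R'.T^[n] x s‖ := by
    refine comp_Inj ht D' h1 (B'.inj_u y' hx.1 _ ?_)
    have h := congrArg (fun L : E r →L[ℝ] E r => L u) (iter_comm H R' n x).1
    simp only [ContinuousLinearMap.comp_apply] at h
    rw [h, hPu]
  have a2 : tnorm y' (tmap R'.T^[n] x u) ≤ K' * tnorm y' (tmap R'.T^[n] x s) := by
    calc tnorm y' (tmap R'.T^[n] x u) ≤ c1 * ‖tmap R'.T^[n] x u‖ := hk1 y' hx.1 _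
      _ ≤ c1 * (|κ'| * ‖D'‖ * ‖tmap R'.T^[n] x s‖) := mul_le_mul_of_nonneg_left a1 hc1.le
      _ ≤ c1 * (|κ'| * ‖D'‖ * (c2 * tnorm y' (tmap R'.T^[n] x s))) := by
          refine mul_le_mul_of_nonneg_left (mul_le_mul_of_nonneg_left (hk2 y' hx.1 _) ?_) hc1.le
          positivity
      _ = K' * tnorm y' (tmap R'.T^[n] x s) := by rw [hK']; ring
  have a3 : tnorm x u ≤ H.C * H.μ ^ n * K' * (H.C * H.μ ^ n) * tnorm x s :=
    chain_Inj H.C_pos.le hm0 hK'0 ((iter_fwd H R' n x u).2 hPu) a2 ((iter_fwd H R' n x s).1 hPs)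
  -- second equation
  have b1 : ‖tmap R''.T.symm^[n] x s‖ ≤ |κ''| * ‖D''‖ * ‖tmap R''.T.symm^[n] x u‖ := by
    refine comp_Inj ht D'' h2 (B''.inj_s y'' hx.2 _ ?_)
    have h := congrArg (fun L : E r →L[ℝ] E r => L s) (iter_comm H R'' n x).2
    simp only [ContinuousLinearMap.comp_apply] at h
    rw [h, hPs, map_zero]
  have b2 : tnorm y'' (tmap R''.T.symm^[n] x s) ≤
      K'' * tnorm y'' (tmap R''.T.symm^[n] x u) := by
    calc tnorm y'' (tmap R''.T.symm^[n] x s) ≤ d1 * ‖tmap R''.T.symm^[n] x s‖ :=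
          hl1 y'' hx.2 _
      _ ≤ d1 * (|κ''| * ‖D''‖ * ‖tmap R''.T.symm^[n] x u‖) :=
          mul_le_mul_of_nonneg_left b1 hd1.le
      _ ≤ d1 * (|κ''| * ‖D''‖ * (d2 * tnorm y'' (tmap R''.T.symm^[n] x u))) := by
          refine mul_le_mul_of_nonneg_left (mul_le_mul_of_nonneg_left (hl2 y'' hx.2 _) ?_) hd1.le
          positivity
      _ = K'' * tnorm y'' (tmap R''.T.symm^[n] x u) := by rw [hK'']; ring
  have b3 : tnorm x s ≤ H.C * H.μ ^ n * K'' * (H.C * H.μ ^ n) * tnorm x u :=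
    chain_Inj H.C_pos.le hm0 hK''0 ((iter_bwd H R'' n x s).2 hPs) b2
      ((iter_bwd H R'' n x u).1 hPu)
  have e1 := hn1 n (le_trans (le_max_left _ _) hn)
  have e2 := hn2 n (le_trans (le_max_right _ _) hn)
  have hu0 : tnorm x u ≤ tnorm x s := by
    have h := hn0 x s
    nlinarith
  have hs0 : tnorm x s ≤ tnorm x u := by
    have h := hn0 x u
    nlinarith
  have hs1 : tnorm x s = 0 := by
    have h := hn0 x s
    rcases h.lt_or_eq with h3 | h3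
    · exfalso
      have h4 : tnorm x s < tnorm x s := by
        have h5 : tnorm x u < tnorm x s := by nlinarith
        exact lt_of_le_of_lt hs0 h5
      exact lt_irrefl _ h4
    · exact h3.symm
  have hu1 : tnorm x u = 0 := le_antisymm (hu0.trans hs1.le) (hn0 x u)
  obtain ⟨a, b, ha, -, hab⟩ := A2.Idx.tnorm_equiv x
  have hz : ∀ w : E r, tnorm x w = 0 → w = 0 := by
    intro w hw
    have h3 := (hab w).1
    rw [hw] at h3
    have h4 := norm_nonneg w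
    have h5 : ‖w‖ = 0 := by nlinarith
    exact norm_eq_zero.1 h5
  have h3 : v = u + s := by rw [hs, hu]; abel
  rw [h3, hz u hu1, hz s hs1, add_zero]

end Pool.Agent.ANO5.A3.Conn
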